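import Pool.Agent.Q190.OB.D

/-! # Davenport's expansion of the sine in dilates of the square wave, uniformly with a rate -/

set_option autoImplicit false

namespace Q190.OB

open Finset Filter Topology MeasureTheory
open Pool.Agent.H807R2.Dav (ee norm_ee ee_add ee_int ee_pow ee_eq ee_zero)
open Pool.Agent.H373R2.T7 (muR muR_abs)

lemma sq_right (x : ℝ) : ∃ δ : ℝ, 0 < δ ∧ ∀ u : ℝ, x ≤ u → u < x + δ → sq u = sq x := by
  have h0 := Int.fract_nonneg x
  have h1 := Int.fract_lt_one x
  have h2 := Int.self_sub_floor x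
  rcases lt_or_ge (Int.fract x) (1 / 2) with h | h
  · refine ⟨1 / 2 - Int.fract x, by linarith, fun u hu1 hu2 => ?_⟩
    have : Int.fract u = Int.fract x + (u - x) := by
      rw [Int.fract_eq_iff]
      exact ⟨by linarith, by linarith, ⌊x⌋, by linarith⟩
    unfold sq
    rw [if_pos h, if_pos (by rw [this]; linarith)]
  · refine ⟨1 - Int.fract x, by linarith, fun u hu1 hu2 => ?_⟩
    have : Int.fract u = Int.fract x + (u - x) := by
      rw [Int.fract_eq_iff]
      exact ⟨by linarith, by linarith, ⌊x⌋, by linarith⟩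
    unfold sq
    rw [if_neg (by rw [this]; linarith : ¬ Int.fract u < 1 / 2),
      if_neg (by linarith : ¬ Int.fract x < 1 / 2)]

lemma TT_right (K : ℕ) (y : ℝ) : ∀ᶠ z in 𝓝[>] y, TT K z = TT K y := by
  have h1 : ∀ k ∈ Icc 1 K, ∀ᶠ z in 𝓝[>] y, sq (k * z) = sq (k * y) := by
    intro k hk
    have hk0 : (0 : ℝ) < k := by exact_mod_cast (mem_Icc.1 hk).1
    obtain ⟨δ, hδ, h⟩ := sq_right (k * y)
    have h2 : Set.Ioo y (y + δ / k) ∈ 𝓝[>] y := Ioo_mem_nhdsGT (by
      have : 0 < δ / k := by positivity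
      linarith)
    filter_upwards [h2] with z hz
    refine h _ (mul_le_mul_of_nonneg_left hz.1.le hk0.le) ?_
    have := mul_lt_mul_of_pos_left hz.2 hk0
    rwa [mul_add, mul_div_cancel₀ _ hk0.ne'] at this
  have h2 := (Finset.eventually_all (Icc 1 K)).2 h1
  filter_upwards [h2] with z hz
  unfold TT
  exact sum_congr rfl fun k hk => by rw [hz k hk]

lemma TT_meas (K : ℕ) : Measurable (TT K) := by
  unfold TT
  refine Finset.measurable_sum _ fun k _ => ?_
  exact ((sq_meas.comp (measurable_const.mul measurable_id)).const_mul _).div_const _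

lemma TT_period (K : ℕ) (y : ℝ) (n : ℤ) : TT K (y + n) = TT K y := by
  unfold TT
  refine sum_congr rfl fun k _ => ?_
  have : (k : ℝ) * (y + n) = k * y + ((k * n : ℤ) : ℝ) := by push_cast; ring
  rw [this, sq_add_int]

lemma log_inv_small (C : ℝ) {ε : ℝ} (hε : 0 < ε) (K0 : ℕ) :
    ∃ K : ℕ, K0 ≤ K ∧ 2 ≤ K ∧ C / Real.log K ^ 1 < ε := by
  have h1 : Tendsto (fun K : ℕ => C / Real.log K ^ 1) atTop (𝓝 0) := by
    simp only [pow_one]
    exact (Real.tendsto_log_atTop.comp tendsto_natCast_atTop_atTop).const_div_atTop C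
  have h2 := (h1.eventually (gt_mem_nhds hε)).and ((eventually_ge_atTop K0).and (eventually_ge_atTop 2))
  obtain ⟨K, hK⟩ := h2.exists
  exact ⟨K, hK.2.1, hK.2.2, hK.1⟩

lemma sin_coef (m : ℤ) : ∫ y in (0 : ℝ)..1, ((4 / Real.pi * Real.sin (2 * Real.pi * y) : ℝ) : ℂ) * ee (-m * y) =
    (2 / (Real.pi * Complex.I)) * ((if 1 - m = 0 then 1 else 0) - (if -1 - m = 0 then 1 else 0)) := by
  have h1 : ∀ y : ℝ, ((4 / Real.pi * Real.sin (2 * Real.pi * y) : ℝ) : ℂ) * ee (-m * y) =
      (2 / (Real.pi * Complex.I)) * (ee (((1 - m : ℤ) : ℝ) * y) - ee (((-1 - m : ℤ) : ℝ) * y)) := by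
    intro y
    have e1 : ee (((1 - m : ℤ) : ℝ) * y) = ee y * ee (-m * y) := by
      rw [← ee_add]; congr 1; push_cast; ring
    have e2 : ee (((-1 - m : ℤ) : ℝ) * y) = ee (-y) * ee (-m * y) := by
      rw [← ee_add]; congr 1; push_cast; ring
    have e3 : (Real.sin (2 * Real.pi * y) : ℂ) = (ee y - ee (-y)) / (2 * Complex.I) := by
      rw [ee_eq, ee_eq, Complex.ofReal_sin, Complex.sin]
      have : ((2 * Real.pi * -y : ℝ) : ℂ) * Complex.I = -((2 * Real.pi * y : ℝ) : ℂ) * Complex.I := by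
        push_cast; ring
      rw [this]
      have hI : Complex.I ≠ 0 := Complex.I_ne_zero
      field_simp
      rw [Complex.I_sq]
      ring
    rw [e1, e2]
    push_cast at e3 ⊢
    rw [e3]
    have hI : Complex.I ≠ 0 := Complex.I_ne_zero
    have hpi : (Real.pi : ℂ) ≠ 0 := by exact_mod_cast Real.pi_ne_zero
    field_simp
    ring
  simp_rw [h1]
  rw [intervalIntegral.integral_const_mul, intervalIntegral.integral_sub, ee_orth, ee_orth]
  · exact (ee_cont.comp (continuous_const.mul continuous_id)).intervalIntegrable _ _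
  · exact (ee_cont.comp (continuous_const.mul continuous_id)).intervalIntegrable _ _

/-- **Davenport's theorem** for the square wave, with arbitrary powers of the logarithm -/
theorem dav (A : ℕ) : ∃ C : ℝ, 0 < C ∧ ∀ K : ℕ, 2 ≤ K → ∀ y : ℝ,
    |TT K y - 4 / Real.pi * Real.sin (2 * Real.pi * y)| ≤ C / Real.log K ^ A := by
  obtain ⟨C1, hC1, h1⟩ := TT_cauchy 1
  obtain ⟨CA, hCA, hA⟩ := TT_cauchy A
  -- the limit
  have hlim : ∀ y : ℝ, ∃ t : ℝ, Tendsto (fun K => TT K y) atTop (𝓝 t) := by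
    intro y
    apply cauchySeq_tendsto_of_complete
    rw [Metric.cauchySeq_iff']
    intro ε hε
    obtain ⟨K, -, hK2, hK⟩ := log_inv_small C1 hε 0
    exact ⟨K, fun n hn => by rw [Real.dist_eq]; exact (h1 K hK2 n hn y).trans_lt hK⟩
  choose T hT using hlim
  have hTle : ∀ K : ℕ, 2 ≤ K → ∀ y : ℝ, |T y - TT K y| ≤ C1 / Real.log K ^ 1 := by
    intro K hK y
    have := ((hT y).sub_const (TT K y)).abs
    exact le_of_tendsto this (eventually_atTop.2 ⟨K, fun n hn => h1 K hK n hn y⟩)
  have hTmeas : Measurable T :=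
    measurable_of_tendsto_metrizable TT_meas (tendsto_pi_nhds.2 hT)
  have hTper : ∀ (y : ℝ) (n : ℤ), T (y + n) = T y := fun y n =>
    tendsto_nhds_unique (hT (y + n)) ((hT y).congr fun K => (TT_period K y n).symm)
  -- it suffices to identify the limit
  suffices hident : ∀ y : ℝ, T y = 4 / Real.pi * Real.sin (2 * Real.pi * y) by
    refine ⟨CA, hCA, fun K hK y => ?_⟩
    rw [← hident y, abs_sub_comm]
    have := ((hT y).sub_const (TT K y)).abs
    exact le_of_tendsto this (eventually_atTop.2 ⟨K, fun n hn => hA K hK n hn y⟩)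
  obtain ⟨g, hg⟩ : ∃ g : ℝ → ℝ, g = fun y => 4 / Real.pi * Real.sin (2 * Real.pi * y) := ⟨_, rfl⟩
  have hgc : Continuous g := by rw [hg]; fun_prop
  obtain ⟨D, hD⟩ : ∃ D : ℝ → ℂ, D = fun y => ((T y : ℝ) : ℂ) - ((g y : ℝ) : ℂ) := ⟨_, rfl⟩
  have hDmeas : Measurable D := by
    rw [hD]
    exact (Complex.measurable_ofReal.comp hTmeas).sub (Complex.measurable_ofReal.comp hgc.measurable)
  -- bounds
  have hTTb : ∀ K : ℕ, ∀ y : ℝ, ‖((TT K y : ℝ) : ℂ)‖ ≤ K := by
    intro K y
    rw [Complex.norm_real, Real.norm_eq_abs]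
    unfold TT
    refine (abs_sum_le_sum_abs _ _).trans ?_
    have : ∀ k ∈ Icc 1 K, |muR k * od k * sq (k * y) / k| ≤ 1 := by
      intro k hk
      have hk1 : (1 : ℝ) ≤ k := by exact_mod_cast (mem_Icc.1 hk).1
      rw [abs_div, abs_mul, sq_abs, mul_one, abs_of_pos (by linarith : (0 : ℝ) < k),
        div_le_one (by linarith)]
      exact (mo_abs k).trans hk1
    refine (sum_le_sum this).trans ?_
    rw [sum_const, Nat.card_Icc, nsmul_eq_mul, Nat.add_sub_cancel, mul_one]
  have hTb : ∀ y : ℝ, ‖((T y : ℝ) : ℂ)‖ ≤ C1 / Real.log (2 : ℕ) ^ 1 + 2 := by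
    intro y
    have e1 := hTle 2 le_rfl y
    have e2 := hTTb 2 y
    rw [Complex.norm_real, Real.norm_eq_abs] at e2 ⊢
    have e3 : T y = (T y - TT 2 y) + TT 2 y := by ring
    rw [e3]
    refine (abs_add_le _ _).trans ?_
    push_cast at e2
    linarith
  have hgb : ∀ y : ℝ, ‖((g y : ℝ) : ℂ)‖ ≤ 4 := by
    intro y
    rw [Complex.norm_real, Real.norm_eq_abs, hg]
    simp only
    rw [abs_mul, abs_of_pos (by positivity : (0 : ℝ) < 4 / Real.pi)]
    have e1 := Real.abs_sin_le_one (2 * Real.pi * y)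
    have e2 : 4 / Real.pi ≤ 4 := by
      rw [div_le_iff₀ Real.pi_pos]; linarith [Real.pi_gt_three]
    nlinarith [abs_nonneg (Real.sin (2 * Real.pi * y))]
  have hTint : ∀ s t : ℝ, IntervalIntegrable (fun y => ((T y : ℝ) : ℂ)) volume s t :=
    bdd_int (Complex.measurable_ofReal.comp hTmeas) _ hTb
  have hgint : ∀ s t : ℝ, IntervalIntegrable (fun y => ((g y : ℝ) : ℂ)) volume s t :=
    bdd_int (Complex.measurable_ofReal.comp hgc.measurable) _ hgb
  have hTTint : ∀ (K : ℕ) (s t : ℝ), IntervalIntegrable (fun y => ((TT K y : ℝ) : ℂ)) volume s t :=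
    fun K => bdd_int (Complex.measurable_ofReal.comp (TT_meas K)) _ (hTTb K)
  have heec : ∀ m : ℤ, Continuous fun y : ℝ => ee (-m * y) := fun m =>
    ee_cont.comp (continuous_const.mul continuous_id)
  -- coefficients of the limit
  have hcoef : ∀ m : ℤ, ∫ y in (0 : ℝ)..1, ((T y : ℝ) : ℂ) * ee (-m * y) =
      if m.natAbs = 1 then 2 / (Real.pi * Complex.I * m) else 0 := by
    intro m
    apply eq_of_forall_dist_le
    intro ε hε
    obtain ⟨K, hK1, hK2, hK⟩ := log_inv_small C1 hε m.natAbs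
    have h2 : ∫ y in (0 : ℝ)..1, ((TT K y : ℝ) : ℂ) * ee (-m * y) =
        if m.natAbs = 1 then 2 / (Real.pi * Complex.I * m) else 0 := by
      rw [TT_coef]
      rcases eq_or_ne m 0 with hm | hm
      · subst hm
        have : ∀ k ∈ Icc 1 K, ((muR k * od k / k : ℝ) : ℂ) *
          (if (k : ℤ) ∣ 0 then (if Odd ((0 : ℤ) / k) then 2 / (Real.pi * Complex.I * ((0 : ℤ) / k : ℤ)) else 0)
            else 0) = 0 := by
          intro k _
          rw [Int.zero_ediv, if_neg (by decide : ¬ Odd (0 : ℤ))]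
          simp
        rw [sum_congr rfl this, sum_const_zero]
        simp
      · exact coef_sum m hm K hK1
    rw [← h2, dist_eq_norm, ← intervalIntegral.integral_sub
      ((hTint 0 1).mul_continuousOn (heec m).continuousOn)
      ((hTTint K 0 1).mul_continuousOn (heec m).continuousOn)]
    have h3 : ∀ y ∈ Set.uIoc (0 : ℝ) 1, ‖((T y : ℝ) : ℂ) * ee (-m * y) - ((TT K y : ℝ) : ℂ) * ee (-m * y)‖ ≤
        C1 / Real.log K ^ 1 := by
      intro y _
      rw [← sub_mul, norm_mul, norm_ee, mul_one, ← Complex.ofReal_sub, Complex.norm_real, Real.norm_eq_abs]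
      exact hTle K hK2 y
    have h4 := intervalIntegral.norm_integral_le_of_norm_le_const h3
    rw [sub_zero, abs_one, mul_one] at h4
    exact h4.trans hK.le
  have hDcoef : ∀ m : ℤ, ∫ y in (0 : ℝ)..1, D y * ee (-m * y) = 0 := by
    intro m
    have h2 : ∀ y : ℝ, D y * ee (-m * y) = ((T y : ℝ) : ℂ) * ee (-m * y) - ((g y : ℝ) : ℂ) * ee (-m * y) := by
      intro y; rw [hD]; ring
    simp_rw [h2]
    rw [intervalIntegral.integral_sub ((hTint 0 1).mul_continuousOn (heec m).continuousOn)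
      ((hgint 0 1).mul_continuousOn (heec m).continuousOn), hcoef m]
    have h3 := sin_coef m
    rw [hg]
    rw [h3]
    have hI : Complex.I ≠ 0 := Complex.I_ne_zero
    have hpi : (Real.pi : ℂ) ≠ 0 := by exact_mod_cast Real.pi_ne_zero
    by_cases hm : m.natAbs = 1
    · rcases Int.natAbs_eq_iff.1 hm with h4 | h4
      · rw [h4]; norm_num
      · rw [h4]; norm_num
        field_simp
        ring
    · rw [if_neg hm, if_neg (by omega), if_neg (by omega)]
      simp
  -- Parseval
  have hDb : ∀ y : ℝ, ‖D y‖ ≤ C1 / Real.log (2 : ℕ) ^ 1 + 2 + 4 := by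
    intro y
    rw [hD]
    exact (norm_sub_le _ _).trans (add_le_add (hTb y) (hgb y))
  have hL2 : MemLp D 2 (volume.restrict (Set.Ioc (0 : ℝ) 1)) :=
    MemLp.of_bound hDmeas.aestronglyMeasurable _ (Eventually.of_forall hDb)
  have hpars := hasSum_sq_fourierCoeffOn (zero_lt_one' ℝ) hL2
  have hzero : ∀ i : ℤ, ‖fourierCoeffOn (zero_lt_one' ℝ) D i‖ ^ 2 = 0 := by
    intro i
    rw [fourierCoeffOn_eq_integral]
    have h2 : ∀ y : ℝ, (fourier (-i) (y : AddCircle ((1 : ℝ) - 0)) : ℂ) • D y = D y * ee (-i * y) := by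
      intro y
      rw [fourier_coe_apply, smul_eq_mul, mul_comm]
      congr 1
      unfold ee
      congr 1
      push_cast
      ring
    simp_rw [h2]
    rw [hDcoef i]
    simp
  simp_rw [hzero] at hpars
  have hint0 := hpars.unique hasSum_zero
  rw [sub_zero, inv_one, one_smul, intervalIntegral.integral_of_le zero_le_one] at hint0
  have hsqint : Integrable (fun x => ‖D x‖ ^ 2) (volume.restrict (Set.Ioc (0 : ℝ) 1)) := by
    have := hL2.norm.integrable_sq
    exact this
  rw [integral_eq_zero_iff_of_nonneg (fun _ => by positivity) hsqint] at hint0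
  have hae : ∀ᵐ x ∂(volume.restrict (Set.Ioc (0 : ℝ) 1)), D x = 0 := by
    filter_upwards [hint0] with x hx
    simpa using hx
  rw [ae_restrict_iff' measurableSet_Ioc] at hae
  -- points in `[0, 1)`
  have hmain : ∀ y : ℝ, 0 ≤ y → y < 1 → T y = g y := by
    intro y hy0 hy1
    apply eq_of_forall_dist_le
    intro ε hε
    obtain ⟨K, -, hK2, hK⟩ := log_inv_small C1 (show 0 < ε / 3 by positivity) 0
    have h2 : ∀ᶠ z in 𝓝[>] y, TT K z = TT K y := TT_right K y
    have h3 : ∀ᶠ z in 𝓝[>] y, |g z - g y| < ε / 3 := by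
      have := (hgc.tendsto y).mono_left (nhdsWithin_le_nhds (s := Set.Ioi y))
      have h4 := (Metric.tendsto_nhds.1 this) (ε / 3) (by positivity)
      simpa [Real.dist_eq] using h4
    have h5 : ∀ᶠ z in 𝓝[>] y, z ∈ Set.Ioo y 1 := Ioo_mem_nhdsGT hy1
    obtain ⟨u, hu, hus⟩ := mem_nhdsGT_iff_exists_Ioo_subset.1 (h2.and (h3.and h5))
    have hex : ∃ z ∈ Set.Ioo y u, D z = 0 := by
      by_contra hcon
      push Not at hcon
      have h6 : Set.Ioo y u ⊆ {x : ℝ | ¬ (x ∈ Set.Ioc (0 : ℝ) 1 → D x = 0)} := by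
        intro z hz
        have h7 := (hus hz).2.2
        simp only [Set.mem_ofPred_eq]
        intro h8
        exact hcon z hz (h8 ⟨by linarith [h7.1], h7.2.le⟩)
      have h7 : volume (Set.Ioo y u) = 0 := measure_mono_null h6 hae
      rw [Real.volume_Ioo, ENNReal.ofReal_eq_zero] at h7
      have : y < u := hu
      linarith
    obtain ⟨z, hz, hDz⟩ := hex
    obtain ⟨g1, g2, g3⟩ := hus hz
    have h8 : T z = g z := by
      rw [hD] at hDz
      have := sub_eq_zero.1 hDz
      exact_mod_cast this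
    have h9 := hTle K hK2 y
    have h10 := hTle K hK2 z
    rw [Real.dist_eq]
    have h11 : T y - g y = (T y - TT K y) - (T z - TT K z) + (TT K y - TT K z) + (T z - g z) + (g z - g y) := by
      ring
    rw [h11, h8, sub_self, add_zero, show TT K z = TT K y from g1, sub_self, add_zero]
    rw [h8, show TT K z = TT K y from g1] at h10
    have h12 := abs_add_le ((T y - TT K y) - (g z - TT K y)) (g z - g y)
    have h13 := abs_sub (T y - TT K y) (g z - TT K y)
    have h14 : |g z - g y| < ε / 3 := g2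
    linarith
  intro y
  have h2 : T y = T (Int.fract y) := by
    have := hTper (Int.fract y) ⌊y⌋
    rw [Int.fract_add_floor] at this
    exact this
  rw [h2, hmain _ (Int.fract_nonneg y) (Int.fract_lt_one y), hg]
  simp only
  congr 1
  have h3 : 2 * Real.pi * y = 2 * Real.pi * Int.fract y + (⌊y⌋ : ℝ) * (2 * Real.pi) := by
    have := Int.fract_add_floor y
    calc 2 * Real.pi * y = 2 * Real.pi * (Int.fract y + ⌊y⌋) := by rw [this]
      _ = _ := by ring
  rw [h3, Real.sin_add_int_mul_two_pi]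

end Q190.OB
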