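import Pool.Agent.Q190.OB.F

/-! # Uniform distribution and normality from the signs of the cosines -/

set_option autoImplicit false

namespace Q190.OB

open Finset Filter Topology
open Q241.SW (avg e ex)

/-- the number of `n < N` with `{y n} ∈ [a, b)` -/
noncomputable def cnt (y : ℕ → ℝ) (a b : ℝ) (N : ℕ) : ℕ :=
  ((range N).filter fun n => a ≤ Int.fract (y n) ∧ Int.fract (y n) < b).card

/-- uniform distribution modulo one -/
def UD (y : ℕ → ℝ) : Prop := ∀ a b : ℝ, 0 ≤ a → a ≤ b → b ≤ 1 →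
  Tendsto (fun N : ℕ => (cnt y a b N : ℝ) / N) atTop (𝓝 (b - a))

lemma mid_eq (y : ℕ → ℝ) (N : ℕ) : mid y N = cnt y (1 / 4) (3 / 4) N := rfl

lemma low_eq (y : ℕ → ℝ) (N : ℕ) : low y N = cnt y 0 (1 / 2) N := by
  unfold low cnt
  congr 1
  refine filter_congr fun n _ => ?_
  simp [Int.fract_nonneg]

lemma cnt_upper (y : ℕ → ℝ)
    (h : ∀ m : ℤ, m ≠ 0 → Tendsto (avg fun n => e (m * y n)) atTop (𝓝 0))
    (a b : ℝ) (hab : a ≤ b) {ε : ℝ} (hε : 0 < ε) :
    ∀ᶠ N : ℕ in atTop, (cnt y a b N : ℝ) / N ≤ (b - a) + ε := by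
  classical
  rcases hab.eq_or_lt with h1 | h1
  · subst h1
    refine Eventually.of_forall fun N => ?_
    have : cnt y a a N = 0 := by
      unfold cnt
      rw [card_eq_zero, filter_eq_empty_iff]
      intro n _ h2
      linarith [h2.1, h2.2]
    rw [this]
    simp only [Nat.cast_zero, zero_div]
    linarith
  · have h2 := Q241.SW.arc y h ((a + b) / 2) ((b - a) / 2) (by linarith)
      (fun n => a ≤ Int.fract (y n) ∧ Int.fract (y n) < b) (fun n hn => by
        have e1 : (y n - (a + b) / 2) = (Int.fract (y n) - (a + b) / 2) + (⌊y n⌋ : ℝ) := by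
          have := Int.self_sub_floor (y n)
          linarith
        rw [e1, AddCircle.coe_add]
        have e2 : (((⌊y n⌋ : ℤ) : ℝ) : UnitAddCircle) = 0 := by
          have : (((⌊y n⌋ : ℤ) : ℝ) : UnitAddCircle) = ((⌊y n⌋ • (1 : ℝ) : ℝ) : UnitAddCircle) := by simp
          rw [this, AddCircle.coe_zsmul, AddCircle.coe_period, smul_zero]
        rw [e2, add_zero]
        refine (?_ : _ ≤ |Int.fract (y n) - (a + b) / 2|).trans ?_
        · rw [UnitAddCircle.norm_eq]
          have := round_le (Int.fract (y n) - (a + b) / 2) 0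
          simpa using this
        · rw [abs_le]
          constructor <;> linarith [hn.1, hn.2]) hε
    filter_upwards [h2] with N hN
    have e3 : 2 * ((b - a) / 2) = b - a := by ring
    rw [e3] at hN
    exact hN

lemma cnt_split (y : ℕ → ℝ) (a b : ℝ) (hab : a ≤ b) (N : ℕ) :
    cnt y 0 a N + cnt y a b N + cnt y b 1 N = N := by
  classical
  unfold cnt
  rw [← card_union_of_disjoint, ← card_union_of_disjoint]
  · have : (((range N).filter fun n => 0 ≤ Int.fract (y n) ∧ Int.fract (y n) < a) ∪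
        ((range N).filter fun n => a ≤ Int.fract (y n) ∧ Int.fract (y n) < b)) ∪
        ((range N).filter fun n => b ≤ Int.fract (y n) ∧ Int.fract (y n) < 1) = range N := by
      ext n
      simp only [mem_union, mem_filter]
      have g0 := Int.fract_nonneg (y n)
      have g1 := Int.fract_lt_one (y n)
      constructor
      · rintro ((h | h) | h) <;> exact h.1
      · intro h
        rcases lt_or_ge (Int.fract (y n)) a with h2 | h2
        · exact Or.inl (Or.inl ⟨h, g0, h2⟩)
        · rcases lt_or_ge (Int.fract (y n)) b with h3 | h3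
          · exact Or.inl (Or.inr ⟨h, h2, h3⟩)
          · exact Or.inr ⟨h, h3, g1⟩
    rw [this, card_range]
  · rw [disjoint_left]
    intro n hn hn'
    rw [mem_union, mem_filter, mem_filter] at hn
    rw [mem_filter] at hn'
    rcases hn with h | h <;> linarith [h.2.1, h.2.2, hn'.2.1, hn'.2.2]
  · rw [disjoint_left]
    intro n hn hn'
    rw [mem_filter] at hn hn'
    linarith [hn.2.1, hn.2.2, hn'.2.1, hn'.2.2]

/-- **Weyl's criterion** -/
theorem ud_of (y : ℕ → ℝ)
    (h : ∀ m : ℤ, m ≠ 0 → Tendsto (avg fun n => e (m * y n)) atTop (𝓝 0)) : UD y := by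
  intro a b h0 hab h1
  rw [Metric.tendsto_atTop]
  intro ε hε
  have u1 := cnt_upper y h 0 a h0 (show 0 < ε / 3 by positivity)
  have u2 := cnt_upper y h a b hab (show 0 < ε / 3 by positivity)
  have u3 := cnt_upper y h b 1 h1 (show 0 < ε / 3 by positivity)
  obtain ⟨N0, hN0⟩ := eventually_atTop.1 (u1.and (u2.and u3))
  refine ⟨max N0 1, fun N hN => ?_⟩
  obtain ⟨g1, g2, g3⟩ := hN0 N ((le_max_left _ _).trans hN)
  have hN1 : 1 ≤ N := (le_max_right _ _).trans hN
  have hNr : (0 : ℝ) < N := by exact_mod_cast hN1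
  have h4 : (cnt y 0 a N : ℝ) / N + (cnt y a b N : ℝ) / N + (cnt y b 1 N : ℝ) / N = 1 := by
    rw [← add_div, ← add_div, div_eq_one_iff_eq hNr.ne']
    exact_mod_cast cnt_split y a b hab N
  rw [Real.dist_eq, abs_lt]
  constructor <;> linarith

/-- a multiple of a uniformly distributed sequence is uniformly distributed -/
lemma ud_mul (y : ℕ → ℝ) (h : UD y) (m : ℕ) (hm : 1 ≤ m) : UD (fun n => m * y n) := by
  classical
  intro a b h0 hab h1
  have hmr : (0 : ℝ) < m := by exact_mod_cast hm
  have key : ∀ N : ℕ, (cnt (fun n => m * y n) a b N : ℝ) =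
      ∑ j ∈ range m, (cnt y (((j : ℝ) + a) / m) (((j : ℝ) + b) / m) N : ℝ) := by
    intro N
    unfold cnt
    simp_rw [natCast_card_filter]
    rw [sum_comm]
    refine sum_congr rfl fun n _ => ?_
    obtain ⟨f, hf⟩ : ∃ f : ℝ, f = Int.fract (y n) := ⟨_, rfl⟩
    have g0 : 0 ≤ f := by rw [hf]; exact Int.fract_nonneg _
    have g1 : f < 1 := by rw [hf]; exact Int.fract_lt_one _
    rw [← hf]
    have e1 : Int.fract ((m : ℝ) * y n) = m * f - (⌊m * f⌋ : ℝ) := by
      have : (m : ℝ) * y n = m * f + ((m * ⌊y n⌋ : ℤ) : ℝ) := by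
        have := Int.self_sub_floor (y n)
        rw [hf, ← this]; push_cast; ring
      rw [this, Int.fract_add_intCast]
      rfl
    have hfl0 : 0 ≤ ⌊(m : ℝ) * f⌋ := Int.floor_nonneg.2 (by positivity)
    obtain ⟨j0, hj0⟩ : ∃ j0 : ℕ, (j0 : ℤ) = ⌊(m : ℝ) * f⌋ := ⟨_, Int.toNat_of_nonneg hfl0⟩
    have hj0r : (j0 : ℝ) = ((⌊(m : ℝ) * f⌋ : ℤ) : ℝ) := by rw [← hj0]; simp
    have g2 : (j0 : ℝ) ≤ m * f := by rw [hj0r]; exact Int.floor_le _
    have g3 : (m : ℝ) * f < j0 + 1 := by rw [hj0r]; exact Int.lt_floor_add_one _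
    have g4 : j0 < m := by
      have : (j0 : ℝ) < m := by nlinarith
      exact_mod_cast this
    rw [sum_eq_single j0]
    · rw [e1, ← hj0r]
      have : (a ≤ m * f - j0 ∧ m * f - j0 < b) ↔ (((j0 : ℝ) + a) / m ≤ f ∧ f < ((j0 : ℝ) + b) / m) := by
        rw [div_le_iff₀ hmr, lt_div_iff₀ hmr]
        constructor <;> rintro ⟨q1, q2⟩ <;> constructor <;> linarith
      simp only [this]
    · intro j _ hj
      rw [if_neg]
      rintro ⟨q1, q2⟩
      rw [div_le_iff₀ hmr] at q1
      rw [lt_div_iff₀ hmr] at q2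
      have q3 : (j : ℝ) < j0 + 1 := by linarith
      have q4 : (j0 : ℝ) < j + 1 := by linarith
      have q5 : j < j0 + 1 := by exact_mod_cast q3
      have q6 : j0 < j + 1 := by exact_mod_cast q4
      omega
    · intro hj
      exact absurd (mem_range.2 g4) hj
  have h2 : Tendsto (fun N : ℕ => ∑ j ∈ range m, (cnt y (((j : ℝ) + a) / m) (((j : ℝ) + b) / m) N : ℝ) / N)
      atTop (𝓝 (∑ j ∈ range m, ((((j : ℝ) + b) / m) - (((j : ℝ) + a) / m)))) := by
    refine tendsto_finsetSum _ fun j hj => ?_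
    rw [mem_range] at hj
    have hjr : (j : ℝ) + 1 ≤ m := by exact_mod_cast hj
    refine h _ _ (by positivity) (div_le_div_of_nonneg_right (by linarith) hmr.le) ?_
    rw [div_le_one hmr]; linarith
  have h3 : ∑ j ∈ range m, ((((j : ℝ) + b) / m) - (((j : ℝ) + a) / m)) = b - a := by
    have : ∀ j ∈ range m, ((((j : ℝ) + b) / m) - (((j : ℝ) + a) / m)) = (b - a) / m := fun j _ => by
      rw [← sub_div]; ring
    rw [sum_congr rfl this, sum_const, card_range, nsmul_eq_mul]
    field_simp
  rw [h3] at h2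
  refine h2.congr fun N => ?_
  rw [key, sum_div]

/-- exponential means from the means of the cosines and sines -/
lemma weyl_of (y : ℕ → ℝ)
    (hc : ∀ m : ℕ, 1 ≤ m → Tendsto (fun N : ℕ => (∑ n ∈ range N, Real.cos (2 * Real.pi * (m * y n))) / N)
      atTop (𝓝 0))
    (hs : ∀ m : ℕ, 1 ≤ m → Tendsto (fun N : ℕ => (∑ n ∈ range N, Real.sin (2 * Real.pi * (m * y n))) / N)
      atTop (𝓝 0)) (m : ℤ) (hm : m ≠ 0) : Tendsto (avg fun n => e (m * y n)) atTop (𝓝 0) := by
  have hpos : ∀ m : ℕ, 1 ≤ m → Tendsto (avg fun n => e (m * y n)) atTop (𝓝 0) := by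
    intro m hm
    have h1 := ((Complex.continuous_ofReal.tendsto 0).comp (hc m hm)).add
      (((Complex.continuous_ofReal.tendsto 0).comp (hs m hm)).mul_const Complex.I)
    simp only [Complex.ofReal_zero, zero_mul, add_zero] at h1
    refine h1.congr fun N => ?_
    simp only [Function.comp_apply]
    unfold avg
    push_cast
    rw [div_mul_eq_mul_div, ← add_div, sum_mul, ← sum_add_distrib]
    congr 1
    refine sum_congr rfl fun n _ => ?_
    unfold e
    rw [Complex.exp_mul_I]
    push_cast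
    ring
  rcases lt_or_gt_of_ne hm with h1 | h1
  · have h2 := hpos m.natAbs (by omega)
    have h3 := (Complex.continuous_conj.tendsto 0).comp h2
    rw [map_zero] at h3
    refine h3.congr fun N => ?_
    show (starRingEnd ℂ) (avg _ N) = _
    unfold avg
    rw [map_div₀, map_sum, map_natCast]
    congr 1
    refine sum_congr rfl fun n _ => ?_
    rw [← Q241.SW.e_neg]
    congr 1
    have : ((m.natAbs : ℕ) : ℝ) = -(m : ℝ) := by
      have h4 : (m.natAbs : ℤ) = -m := by omega
      have h5 : (((m.natAbs : ℕ) : ℤ) : ℝ) = ((-m : ℤ) : ℝ) := by rw [h4]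
      push_cast at h5
      simpa using h5
    rw [this]
    ring
  · have h2 := hpos m.natAbs (by omega)
    have h3 : ((m.natAbs : ℕ) : ℝ) = (m : ℝ) := by
      have h4 : (m.natAbs : ℤ) = m := by omega
      have h5 : (((m.natAbs : ℕ) : ℤ) : ℝ) = ((m : ℤ) : ℝ) := by rw [h4]
      simpa using h5
    rwa [h3] at h2

/-- **The signs of the cosines and sines decide uniform distribution** -/
theorem ud_iff (y : ℕ → ℝ) : UD y ↔ ∀ m : ℕ, 1 ≤ m →
    Tendsto (fun N : ℕ => (mid (fun n => m * y n) N : ℝ) / N) atTop (𝓝 (1 / 2)) ∧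
    Tendsto (fun N : ℕ => (low (fun n => m * y n) N : ℝ) / N) atTop (𝓝 (1 / 2)) := by
  constructor
  · intro h m hm
    have h1 := ud_mul y h m hm
    have h2 := h1 (1 / 4) (3 / 4) (by norm_num) (by norm_num) (by norm_num)
    have h3 := h1 0 (1 / 2) (by norm_num) (by norm_num) (by norm_num)
    norm_num at h2 h3
    refine ⟨?_, ?_⟩
    · refine (h2.congr fun N => ?_)
      rw [mid_eq]
    · refine (h3.congr fun N => ?_)
      rw [low_eq]
  · intro h
    refine ud_of y fun m hm => weyl_of y ?_ ?_ m hm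
    · intro m hm
      refine cos_lim (fun n => m * y n) fun k hk => ?_
      have h1 := (h (k * m) (Nat.mul_pos (by omega) hm)).1
      refine h1.congr fun N => ?_
      congr 3
      funext n
      push_cast
      ring
    · intro m hm
      refine sin_lim (fun n => m * y n) fun k hk => ?_
      have h1 := (h (k * m) (Nat.mul_pos (by omega) hm)).2
      refine h1.congr fun N => ?_
      congr 3
      funext n
      push_cast
      ring

end Q190.OB
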