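import Pool.Agent.H373R2.T7.SupMu
import Pool.Agent.H419R2.Saw

/-! # The sawtooth function and exponential sums of the Moebius function over odd numbers -/

set_option autoImplicit false

namespace Q190.OB

open Finset Filter Topology
open Pool.Agent.H807R2.Dav (ee norm_ee ee_add ee_int ee_pow ee_eq)
open Pool.Agent.H373R2.T7 (muR muR_abs sup_mu mu_ap)

/-- indicator of the odd numbers -/
noncomputable def od (k : ℕ) : ℝ := if k % 2 = 1 then 1 else 0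

lemma od_abs (k : ℕ) : |od k| ≤ 1 := by unfold od; split_ifs <;> simp

lemma mo_abs (k : ℕ) : |muR k * od k| ≤ 1 := by
  rw [abs_mul]
  exact mul_le_one₀ (muR_abs k) (abs_nonneg _) (od_abs k)

/-- the sawtooth `1 / 2 - {x}` -/
noncomputable def sw (x : ℝ) : ℝ := 1 / 2 - Int.fract x

lemma sw_abs (x : ℝ) : |sw x| ≤ 1 / 2 := by
  unfold sw
  have h0 := Int.fract_nonneg x
  have h1 := (Int.fract_lt_one x).le
  rw [abs_le]; constructor <;> linarith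

lemma sw_add_int (x : ℝ) (m : ℤ) : sw (x + m) = sw x := by
  unfold sw; rw [Int.fract_add_intCast]

lemma ee_half : ee (1 / 2) = -1 := by
  rw [ee_eq]
  have : ((2 * Real.pi * (1 / 2) : ℝ) : ℂ) * Complex.I = Real.pi * Complex.I := by
    push_cast; ring
  rw [this, Complex.exp_pi_mul_I]

lemma ee_shift (n : ℕ) (α : ℝ) : ee (n * (α + 1 / 2)) = ee (n * α) * (-1) ^ n := by
  rw [mul_add, ee_add, ee_pow (1 / 2) n, ee_half]

lemma term_eq (n : ℕ) (α : ℝ) : ((muR n * od n : ℝ) : ℂ) * ee (n * α) =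
    (1 / 2) * (((muR n : ℝ) : ℂ) * ee (n * α) - ((muR n : ℝ) : ℂ) * ee (n * (α + 1 / 2))) := by
  rw [ee_shift]
  unfold od
  rcases Nat.even_or_odd n with h | h
  · have h1 : n % 2 ≠ 1 := by obtain ⟨j, rfl⟩ := h; omega
    rw [if_neg h1, h.neg_one_pow]
    push_cast; ring
  · have h1 : n % 2 = 1 := by obtain ⟨j, rfl⟩ := h; omega
    rw [if_pos h1, h.neg_one_pow]
    push_cast; ring

theorem sup_odd (U : ℕ) : ∃ N0 : ℕ, ∀ N : ℕ, N0 ≤ N → ∀ α : ℝ,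
    ‖∑ n ∈ Icc 1 N, ((muR n * od n : ℝ) : ℂ) * ee ((n : ℝ) * α)‖ ≤ N / Real.log N ^ U := by
  obtain ⟨N0, h⟩ := sup_mu U
  refine ⟨N0, fun N hN α => ?_⟩
  have h1 := h N hN α
  have h2 := h N hN (α + 1 / 2)
  simp_rw [term_eq]
  rw [← mul_sum, sum_sub_distrib, norm_mul]
  have h3 := norm_sub_le (∑ n ∈ Icc 1 N, ((muR n : ℝ) : ℂ) * ee ((n : ℝ) * α))
    (∑ n ∈ Icc 1 N, ((muR n : ℝ) : ℂ) * ee ((n : ℝ) * (α + 1 / 2)))
  have h4 : ‖(1 / 2 : ℂ)‖ = 1 / 2 := by norm_num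
  rw [h4]
  linarith

lemma sin_le (X : ℕ) (y : ℝ) (n : ℕ) {M : ℝ}
    (hM : ∀ α : ℝ, ‖∑ k ∈ Icc 1 X, ((muR k * od k : ℝ) : ℂ) * ee ((k : ℝ) * α)‖ ≤ M) :
    |∑ k ∈ Icc 1 X, muR k * od k * Real.sin (2 * Real.pi * n * (k * y))| ≤ M := by
  have h1 : ∑ k ∈ Icc 1 X, muR k * od k * Real.sin (2 * Real.pi * n * (k * y)) =
      (∑ k ∈ Icc 1 X, ((muR k * od k : ℝ) : ℂ) * ee ((k : ℝ) * (n * y))).im := by
    rw [Complex.im_sum]
    refine sum_congr rfl fun k _ => ?_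
    rw [Complex.im_ofReal_mul, ee_eq, Complex.exp_ofReal_mul_I_im]
    congr 2
    ring
  rw [h1]
  exact (Complex.abs_im_le_norm _).trans (hM _)

lemma B_sum (X N : ℕ) (y : ℝ) {M : ℝ} 
    (hM : ∀ α : ℝ, ‖∑ k ∈ Icc 1 X, ((muR k * od k : ℝ) : ℂ) * ee ((k : ℝ) * α)‖ ≤ M) :
    |∑ k ∈ Icc 1 X, muR k * od k * H419R2.Saw.B N (k * y)| ≤ (1 + Real.log N) * M := by
  have hM0 : 0 ≤ M := (norm_nonneg _).trans (hM 0)
  have h1 : ∑ k ∈ Icc 1 X, muR k * od k * H419R2.Saw.B N (k * y) =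
      (1 / Real.pi) * ∑ n ∈ Icc 1 N, (1 / (n : ℝ)) *
        ∑ k ∈ Icc 1 X, muR k * od k * Real.sin (2 * Real.pi * n * (k * y)) := by
    simp_rw [H419R2.Saw.B, mul_sum]
    rw [sum_comm]
    refine sum_congr rfl fun n _ => sum_congr rfl fun k _ => ?_
    ring
  rw [h1, abs_mul, abs_of_pos (by positivity : (0 : ℝ) < 1 / Real.pi)]
  have h2 : |∑ n ∈ Icc 1 N, (1 / (n : ℝ)) *
        ∑ k ∈ Icc 1 X, muR k * od k * Real.sin (2 * Real.pi * n * (k * y))| ≤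
        ∑ n ∈ Icc 1 N, (1 / (n : ℝ)) * M := by
    refine (abs_sum_le_sum_abs _ _).trans (sum_le_sum fun n _ => ?_)
    rw [abs_mul, abs_of_nonneg (by positivity : (0 : ℝ) ≤ 1 / n)]
    exact mul_le_mul_of_nonneg_left (sin_le X y n hM) (by positivity)
  have h3 : ∑ n ∈ Icc 1 N, (1 / (n : ℝ)) ≤ 1 + Real.log N := by
    have := harmonic_le_one_add_log N
    rw [harmonic_eq_sum_Icc] at this
    push_cast at this
    simpa [one_div] using this
  have h4 : (1 : ℝ) / Real.pi ≤ 1 := by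
    rw [div_le_one Real.pi_pos]; linarith [Real.pi_gt_three]
  rw [← sum_mul] at h2
  have h5 : 0 ≤ ∑ n ∈ Icc 1 N, (1 / (n : ℝ)) := sum_nonneg fun _ _ => by positivity
  calc 1 / Real.pi * |∑ n ∈ Icc 1 N, (1 / (n : ℝ)) *
        ∑ k ∈ Icc 1 X, muR k * od k * Real.sin (2 * Real.pi * n * (k * y))|
      ≤ 1 * ((∑ n ∈ Icc 1 N, (1 / (n : ℝ))) * M) := by
        apply mul_le_mul h4 h2 (abs_nonneg _) zero_le_one
    _ ≤ (1 + Real.log N) * M := by
        rw [one_mul]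
        exact mul_le_mul_of_nonneg_right h3 hM0

lemma near_B (N : ℕ) (u : ℝ) : |sw u - H419R2.Saw.B N u| ≤ 3 / 2 := by
  have h1 := sw_abs u
  have h2 := H419R2.Saw.B_abs N u
  have h3 := abs_sub (sw u) (H419R2.Saw.B N u)
  linarith

lemma sw_pos {v : ℝ} (h0 : 0 < v) (h1 : v ≤ 1 / 2) : sw v = 1 / 2 - v := by
  unfold sw
  rw [Int.fract_eq_self.2 ⟨h0.le, by linarith⟩]

lemma sw_neg {v : ℝ} (h0 : 0 < v) (h1 : v ≤ 1 / 2) : sw (-v) = -(1 / 2 - v) := by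
  unfold sw
  have h2 : Int.fract (-v) = 1 - v := by
    rw [Int.fract_eq_iff]
    exact ⟨by linarith, by linarith, -1, by push_cast; ring⟩
  rw [h2]; ring

lemma far_B (N : ℕ) (u δ : ℝ) (hδ : 0 < δ) (h : δ ≤ |u - round u|) :
    |sw u - H419R2.Saw.B N u| ≤ 1 / ((2 * N + 1) * Real.pi * δ) := by
  have hw : (0 : ℝ) < (2 * N + 1) * Real.pi := by positivity
  obtain ⟨v, hv⟩ : ∃ v : ℝ, v = u - round u := ⟨_, rfl⟩
  have h1 : sw u = sw v := by
    have := sw_add_int v (round u)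
    rw [hv, sub_add_cancel] at this
    rw [hv]; exact this
  have h2 : H419R2.Saw.B N u = H419R2.Saw.B N v := by
    have := H419R2.Saw.B_add_int N v (round u)
    rw [hv, sub_add_cancel] at this
    rw [hv]; exact this
  have h3 : |v| ≤ 1 / 2 := by rw [hv]; exact abs_sub_round u
  rw [← hv] at h
  rw [h1, h2]
  have hv0 : 0 < |v| := hδ.trans_le h
  have h4 : |sw v - H419R2.Saw.B N v| = |H419R2.Saw.B N |v| - (1 / 2 - |v|)| := by
    rcases le_or_gt 0 v with h5 | h5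
    · rw [abs_of_nonneg h5] at hv0 h3 ⊢
      rw [sw_pos hv0 h3, abs_sub_comm]
    · rw [abs_of_neg h5] at hv0 h3 ⊢
      have h6 := sw_neg hv0 h3
      have h7 := H419R2.Saw.B_neg N (-v)
      rw [neg_neg] at h6 h7
      rw [h6, h7]
      congr 1; ring
  rw [h4]
  refine (H419R2.Saw.key N hv0 h3).trans ?_
  exact one_div_le_one_div_of_le (by positivity) (mul_le_mul_of_nonneg_left h hw.le)

end Q190.OB
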