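import Pool.Agent.Q190.OB.A

/-! # Davenport's bound for sums of the Moebius function with the sawtooth -/

set_option autoImplicit false

namespace Q190.OB

open Finset Filter Topology
open Pool.Agent.H807R2.Dav (ee norm_ee ee_add ee_int ee_pow ee_eq)
open Pool.Agent.H373R2.T7 (muR muR_abs sup_mu mu_ap)

lemma pigeon (X M : ℕ) (hM : 1 ≤ M) (y δ : ℝ)
    (h : X / M + 1 < ((Icc 1 X).filter fun k : ℕ => |(k : ℝ) * y - round ((k : ℝ) * y)| < δ).card) :
    ∃ q : ℕ, 1 ≤ q ∧ q < M ∧ ∃ a : ℤ, |(q : ℝ) * y - a| < 2 * δ := by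
  have key : ∀ k1 k2 : ℕ, k1 < k2 → k1 / M = k2 / M →
      |(k1 : ℝ) * y - round ((k1 : ℝ) * y)| < δ → |(k2 : ℝ) * y - round ((k2 : ℝ) * y)| < δ →
      ∃ q : ℕ, 1 ≤ q ∧ q < M ∧ ∃ a : ℤ, |(q : ℝ) * y - a| < 2 * δ := by
    intro k1 k2 h1 h2 h3 h4
    refine ⟨k2 - k1, by omega, ?_, round ((k2 : ℝ) * y) - round ((k1 : ℝ) * y), ?_⟩
    · have e1 := Nat.div_add_mod k1 M
      have e2 := Nat.div_add_mod k2 M
      have e3 := Nat.mod_lt k2 (show 0 < M by omega)
      rw [h2] at e1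
      omega
    · rw [Nat.cast_sub h1.le]
      push_cast
      rw [abs_lt] at h3 h4 ⊢
      constructor <;> nlinarith
  have hc : (range (X / M + 1)).card < ((Icc 1 X).filter fun k : ℕ =>
      |(k : ℝ) * y - round ((k : ℝ) * y)| < δ).card := by rwa [card_range]
  obtain ⟨k1, hk1, k2, hk2, hne, heq⟩ := Finset.exists_ne_map_eq_of_card_lt_of_maps_to hc
    (f := fun k => k / M) (fun k hk => by
      have hk' := (mem_filter.1 hk).1
      rw [mem_Icc] at hk'
      have : k / M ≤ X / M := Nat.div_le_div_right hk'.2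
      simp only [coe_range, Set.mem_Iio]
      omega)
  have g1 := (mem_filter.1 hk1).2
  have g2 := (mem_filter.1 hk2).2
  rcases lt_or_gt_of_ne hne with hlt | hlt
  · exact key k1 k2 hlt heq g1 g2
  · exact key k2 k1 hlt heq.symm g2 g1

open Classical in
/-- the values of the sawtooth at a point near `a / q` -/
noncomputable def G (q : ℕ) (a : ℤ) (η : ℝ) (k : ℕ) : ℝ :=
  if ((k : ℤ) * a) % (q : ℤ) = 0 ∧ η < 0 then -1 / 2 else 1 / 2 - ((((k : ℤ) * a) % (q : ℤ) : ℤ) : ℝ) / q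

lemma G_abs {q : ℕ} (hq : 1 ≤ q) (a : ℤ) (η : ℝ) (k : ℕ) : |G q a η k| ≤ 1 / 2 := by
  unfold G
  split_ifs
  · rw [abs_le]; constructor <;> norm_num
  · have hqz : (0 : ℤ) < q := by exact_mod_cast hq
    have hqr : (0 : ℝ) < q := by exact_mod_cast hq
    have h1 := Int.emod_nonneg ((k : ℤ) * a) hqz.ne'
    have h2 := Int.emod_lt_of_pos ((k : ℤ) * a) hqz
    have h3 : (0 : ℝ) ≤ (((((k : ℤ) * a) % (q : ℤ) : ℤ) : ℝ)) / q :=
      div_nonneg (by exact_mod_cast h1) hqr.le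
    have h4 : (((((k : ℤ) * a) % (q : ℤ) : ℤ) : ℝ)) / q ≤ 1 := by
      rw [div_le_one hqr]
      exact_mod_cast h2.le
    rw [abs_le]; constructor <;> linarith

lemma G_mod (q : ℕ) (a : ℤ) (η : ℝ) (k : ℕ) : G q a η (k % (2 * q)) = G q a η k := by
  have : (((k % (2 * q) : ℕ) : ℤ) * a) % (q : ℤ) = ((k : ℤ) * a) % (q : ℤ) := by
    rw [Int.mul_emod, Int.mul_emod (k : ℤ)]
    congr 2
    push_cast
    rw [Int.emod_emod_of_dvd]
    exact Dvd.intro_left 2 rfl
  unfold G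
  rw [this]

lemma od_mod (q : ℕ) (k : ℕ) : od (k % (2 * q)) = od k := by
  unfold od
  have : k % (2 * q) % 2 = k % 2 := Nat.mod_mod_of_dvd k (Dvd.intro q rfl)
  rw [this]

lemma sw_near {q : ℕ} (hq : 1 ≤ q) (a : ℤ) (η y : ℝ) (hy : y = a / q + η) (k : ℕ) (hk : 1 ≤ k)
    (h : (k : ℝ) * |η| < 1 / q) : sw (k * y) = G q a η k - k * η := by
  have hqz : (0 : ℤ) < q := by exact_mod_cast hq
  have hqr : (0 : ℝ) < q := by exact_mod_cast hq
  have hkr : (0 : ℝ) < k := by exact_mod_cast hk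
  obtain ⟨z, hz⟩ : ∃ z : ℤ, z = (k : ℤ) * a := ⟨_, rfl⟩
  have h1 := Int.emod_nonneg z hqz.ne'
  have h2 := Int.emod_lt_of_pos z hqz
  have h3 := Int.emod_add_mul_ediv z (q : ℤ)
  have e1 : (k : ℝ) * y = ((z % (q : ℤ) : ℤ) : ℝ) / q + k * η + ((z / (q : ℤ) : ℤ) : ℝ) := by
    have h4 : (z : ℝ) = ((z % (q : ℤ) : ℤ) : ℝ) + q * ((z / (q : ℤ) : ℤ) : ℝ) := by
      exact_mod_cast h3.symm
    have h5 : (z : ℝ) = k * a := by rw [hz]; push_cast; rfl
    rw [hy]
    have h6 : (k : ℝ) * (a / q + η) = z / q + k * η := by rw [h5]; ring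
    rw [h6, h4]
    field_simp
    ring
  have habs : |(k : ℝ) * η| < 1 / q := by rwa [abs_mul, abs_of_pos hkr]
  rw [abs_lt] at habs
  rw [e1, sw_add_int]
  unfold G
  rw [← hz]
  have h2r : ((z % (q : ℤ) : ℤ) : ℝ) + 1 ≤ q := by exact_mod_cast h2
  have h1r : (0 : ℝ) ≤ ((z % (q : ℤ) : ℤ) : ℝ) := by exact_mod_cast h1
  have h7 : ((z % (q : ℤ) : ℤ) : ℝ) / q ≤ 1 - 1 / q := by
    rw [div_le_iff₀ hqr, sub_mul, one_mul, div_mul_cancel₀ _ hqr.ne']
    linarith
  split_ifs with hc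
  · rw [hc.1]
    have h8 : (k : ℝ) * η < 0 := mul_neg_of_pos_of_neg hkr hc.2
    have h9 : 1 / (q : ℝ) ≤ 1 := by rw [div_le_one hqr]; exact_mod_cast hq
    unfold sw
    have : Int.fract (((0 : ℤ) : ℝ) / q + k * η) = 1 + k * η := by
      rw [Int.fract_eq_iff]
      refine ⟨by linarith, by linarith, -1, by push_cast; ring⟩
    rw [this]; ring
  · have h10 : 0 ≤ ((z % (q : ℤ) : ℤ) : ℝ) / q + k * η := by
      rcases le_or_gt 0 η with h11 | h11
      · have : 0 ≤ (k : ℝ) * η := mul_nonneg hkr.le h11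
        positivity
      · have h12 : ¬ z % (q : ℤ) = 0 := fun h0 => hc ⟨h0, h11⟩
        have h13 : 1 ≤ z % (q : ℤ) := by omega
        have h14 : 1 / (q : ℝ) ≤ ((z % (q : ℤ) : ℤ) : ℝ) / q :=
          div_le_div_of_nonneg_right (by exact_mod_cast h13) hqr.le
        linarith
    unfold sw
    have : Int.fract (((z % (q : ℤ) : ℤ) : ℝ) / q + k * η) = ((z % (q : ℤ) : ℤ) : ℝ) / q + k * η := by
      rw [Int.fract_eq_self]
      exact ⟨h10, by linarith⟩
    rw [this]; ring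

lemma case_two {q : ℕ} (hq : 1 ≤ q) (a : ℤ) (X : ℕ) (hX : 3 ≤ X) (y E : ℝ)
    (hy : |(q : ℝ) * y - a| < 2 * (1 / (X : ℝ) ^ 2))
    (hE : ∀ j : ℕ, |∑ n ∈ (Icc 1 X).filter (fun n => n ≡ j [MOD (2 * q)]), muR n| ≤ E) :
    |∑ k ∈ Icc 1 X, muR k * od k * sw (k * y)| ≤ q * E + 2 := by
  have hqr : (0 : ℝ) < q := by exact_mod_cast hq
  have hq1 : (1 : ℝ) ≤ q := by exact_mod_cast hq
  have hXr : (3 : ℝ) ≤ X := by exact_mod_cast hX
  have hX0 : (0 : ℝ) < X := by linarith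
  obtain ⟨η, hη⟩ : ∃ η : ℝ, η = y - a / q := ⟨_, rfl⟩
  have hyη : y = a / q + η := by rw [hη]; ring
  have h1 : |η| < 2 / ((X : ℝ) ^ 2 * q) := by
    have h2 : η = (q * y - a) / q := by rw [hη]; field_simp
    rw [h2, abs_div, abs_of_pos hqr, div_lt_div_iff₀ hqr (by positivity)]
    calc |(q : ℝ) * y - a| * ((X : ℝ) ^ 2 * q) < (2 * (1 / (X : ℝ) ^ 2)) * ((X : ℝ) ^ 2 * q) := by
          gcongr
      _ = 2 * (q : ℝ) := by field_simp
  have hsw : ∀ k ∈ Icc 1 X, muR k * od k * sw (k * y) =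
      muR k * od k * G q a η k - muR k * od k * (k * η) := by
    intro k hk
    rw [mem_Icc] at hk
    have hk1 : (k : ℝ) ≤ X := by exact_mod_cast hk.2
    rw [sw_near hq a η y hyη k hk.1 ?_]
    · ring
    · calc (k : ℝ) * |η| ≤ X * |η| := by gcongr
        _ < X * (2 / ((X : ℝ) ^ 2 * q)) := by gcongr
        _ = 2 / (X * q) := by field_simp
        _ ≤ 1 / q := by
          rw [div_le_div_iff₀ (by positivity) hqr]
          nlinarith
  rw [sum_congr rfl hsw, sum_sub_distrib]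
  have hA : |∑ k ∈ Icc 1 X, muR k * od k * G q a η k| ≤ q * E := by
    have hmap : ∀ k ∈ Icc 1 X, k % (2 * q) ∈ range (2 * q) := fun k _ =>
      mem_range.2 (Nat.mod_lt _ (by omega))
    rw [← sum_fiberwise_of_maps_to hmap]
    have h3 : ∀ j ∈ range (2 * q), ∑ k ∈ (Icc 1 X).filter (fun k => k % (2 * q) = j),
        muR k * od k * G q a η k = od j * G q a η j *
          ∑ n ∈ (Icc 1 X).filter (fun n => n ≡ j [MOD (2 * q)]), muR n := by
      intro j hj
      rw [mem_range] at hj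
      rw [mul_sum]
      have h4 : (Icc 1 X).filter (fun n => n ≡ j [MOD (2 * q)]) =
          (Icc 1 X).filter (fun k => k % (2 * q) = j) := by
        refine filter_congr fun k _ => ?_
        unfold Nat.ModEq
        rw [Nat.mod_eq_of_lt hj]
      rw [h4]
      refine sum_congr rfl fun k hk => ?_
      have h5 := (mem_filter.1 hk).2
      rw [← h5, G_mod, od_mod]
      ring
    rw [sum_congr rfl h3]
    refine (abs_sum_le_sum_abs _ _).trans ?_
    have h6 : ∀ j ∈ range (2 * q), |od j * G q a η j *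
          ∑ n ∈ (Icc 1 X).filter (fun n => n ≡ j [MOD (2 * q)]), muR n| ≤ 1 / 2 * E := by
      intro j _
      rw [abs_mul, abs_mul]
      have := hE j
      have h7 : |od j| * |G q a η j| ≤ 1 * (1 / 2) :=
        mul_le_mul (od_abs j) (G_abs hq a η j) (abs_nonneg _) zero_le_one
      calc |od j| * |G q a η j| * _ ≤ (1 * (1 / 2)) * E :=
            mul_le_mul h7 this (abs_nonneg _) (by norm_num)
        _ = _ := by ring
    refine (sum_le_sum h6).trans ?_
    rw [sum_const, card_range, nsmul_eq_mul]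
    push_cast
    linarith
  have hB : |∑ k ∈ Icc 1 X, muR k * od k * (k * η)| ≤ 2 := by
    refine (abs_sum_le_sum_abs _ _).trans ?_
    have h8 : ∀ k ∈ Icc 1 X, |muR k * od k * (k * η)| ≤ X * |η| := by
      intro k hk
      rw [mem_Icc] at hk
      have hk1 : (k : ℝ) ≤ X := by exact_mod_cast hk.2
      rw [abs_mul, abs_mul (k : ℝ), abs_of_nonneg (Nat.cast_nonneg k : (0 : ℝ) ≤ k)]
      calc |muR k * od k| * (k * |η|) ≤ 1 * (X * |η|) := by
            gcongr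
            exact mo_abs k
        _ = _ := one_mul _
    refine (sum_le_sum h8).trans ?_
    rw [sum_const, Nat.card_Icc, nsmul_eq_mul, Nat.add_sub_cancel]
    calc (X : ℝ) * (X * |η|) ≤ X * (X * (2 / ((X : ℝ) ^ 2 * q))) := by gcongr
      _ = 2 / q := by field_simp
      _ ≤ 2 := by rw [div_le_iff₀ hqr]; linarith
  have h9 := abs_sub (∑ k ∈ Icc 1 X, muR k * od k * G q a η k) (∑ k ∈ Icc 1 X, muR k * od k * (k * η))
  linarith

lemma case_one (X M : ℕ) (hX : 3 ≤ X) (y S : ℝ)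
    (hS : ∀ α : ℝ, ‖∑ k ∈ Icc 1 X, ((muR k * od k : ℝ) : ℂ) * ee ((k : ℝ) * α)‖ ≤ S)
    (h : ((Icc 1 X).filter fun k : ℕ => |(k : ℝ) * y - round ((k : ℝ) * y)| < 1 / (X : ℝ) ^ 2).card ≤
      X / M + 1) :
    |∑ k ∈ Icc 1 X, muR k * od k * sw (k * y)| ≤ (1 + 3 * Real.log X) * S + 3 + 3 / 2 * (X / M) := by
  have hXr : (3 : ℝ) ≤ X := by exact_mod_cast hX
  have hX0 : (0 : ℝ) < X := by linarith
  have h1 := B_sum X (X ^ 3) y hS
  have h2 : Real.log ((X ^ 3 : ℕ) : ℝ) = 3 * Real.log X := by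
    push_cast; rw [Real.log_pow]; norm_num
  rw [h2] at h1
  have h3 : |∑ k ∈ Icc 1 X, muR k * od k * (sw (k * y) - H419R2.Saw.B (X ^ 3) (k * y))| ≤
      3 + 3 / 2 * (X / M) := by
    refine (abs_sum_le_sum_abs _ _).trans ?_
    have h4 : ∀ k ∈ Icc 1 X, |muR k * od k * (sw (k * y) - H419R2.Saw.B (X ^ 3) (k * y))| ≤
        1 / X + (if |(k : ℝ) * y - round ((k : ℝ) * y)| < 1 / (X : ℝ) ^ 2 then 3 / 2 else 0) := by
      intro k _
      rw [abs_mul]
      have h5 : |muR k * od k| * |sw (k * y) - H419R2.Saw.B (X ^ 3) (k * y)| ≤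
          1 * |sw (k * y) - H419R2.Saw.B (X ^ 3) (k * y)| :=
        mul_le_mul_of_nonneg_right (mo_abs k) (abs_nonneg _)
      rw [one_mul] at h5
      refine h5.trans ?_
      split_ifs with hc
      · have := near_B (X ^ 3) (k * y)
        have : (0 : ℝ) ≤ 1 / X := by positivity
        linarith
      · rw [not_lt] at hc
        refine (far_B (X ^ 3) (k * y) (1 / (X : ℝ) ^ 2) (by positivity) hc).trans ?_
        rw [add_zero]
        apply one_div_le_one_div_of_le hX0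
        have h6 : ((X ^ 3 : ℕ) : ℝ) = (X : ℝ) ^ 3 := by push_cast; rfl
        rw [h6]
        have h7 : (2 * (X : ℝ) ^ 3 + 1) * Real.pi * (1 / (X : ℝ) ^ 2) =
            (2 * X + 1 / (X : ℝ) ^ 2) * Real.pi := by field_simp
        rw [h7]
        have h8 : (0 : ℝ) ≤ 1 / (X : ℝ) ^ 2 := by positivity
        nlinarith [Real.pi_gt_three]
    refine (sum_le_sum h4).trans ?_
    rw [sum_add_distrib, sum_const, Nat.card_Icc, nsmul_eq_mul, Nat.add_sub_cancel,
      mul_one_div_cancel hX0.ne', ← sum_filter, sum_const, nsmul_eq_mul]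
    have h9 : (((Icc 1 X).filter fun k : ℕ =>
        |(k : ℝ) * y - round ((k : ℝ) * y)| < 1 / (X : ℝ) ^ 2).card : ℝ) ≤ X / M + 1 := by
      have h10 : (((Icc 1 X).filter fun k : ℕ =>
        |(k : ℝ) * y - round ((k : ℝ) * y)| < 1 / (X : ℝ) ^ 2).card : ℝ) ≤ ((X / M + 1 : ℕ) : ℝ) := by
        exact_mod_cast h
      have h11 : ((X / M : ℕ) : ℝ) ≤ (X : ℝ) / M := Nat.cast_div_le
      push_cast at h10
      linarith
    linarith
  have h5 : ∑ k ∈ Icc 1 X, muR k * od k * sw (k * y) =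
      ∑ k ∈ Icc 1 X, muR k * od k * H419R2.Saw.B (X ^ 3) (k * y) +
      ∑ k ∈ Icc 1 X, muR k * od k * (sw (k * y) - H419R2.Saw.B (X ^ 3) (k * y)) := by
    rw [← sum_add_distrib]
    exact sum_congr rfl fun k _ => by ring
  rw [h5]
  have h6 := abs_add_le (∑ k ∈ Icc 1 X, muR k * od k * H419R2.Saw.B (X ^ 3) (k * y))
    (∑ k ∈ Icc 1 X, muR k * od k * (sw (k * y) - H419R2.Saw.B (X ^ 3) (k * y)))
  linarith

lemma ev_pow (A : ℕ) : ∃ X0 : ℕ, ∀ X : ℕ, X0 ≤ X → Real.log X ^ A ≤ X ∧ 4 ≤ Real.log X := by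
  have h1 : ∀ᶠ x : ℝ in atTop, ‖Real.log x ^ A‖ ≤ 1 * ‖id x‖ :=
    (Real.isLittleO_pow_log_id_atTop (n := A)).bound one_pos
  have h2 := Real.tendsto_log_atTop.eventually_ge_atTop 4
  have h3 := tendsto_natCast_atTop_atTop (R := ℝ) |>.eventually (h1.and (h2.and (eventually_ge_atTop 0)))
  obtain ⟨X0, h⟩ := eventually_atTop.1 h3
  refine ⟨X0, fun X hX => ?_⟩
  obtain ⟨g1, g2, g3⟩ := h X hX
  refine ⟨?_, g2⟩
  rw [one_mul, id, Real.norm_eq_abs, Real.norm_eq_abs, abs_of_nonneg g3] at g1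
  exact (le_abs_self _).trans g1

/-- **Davenport's bound for the sawtooth** -/
theorem saw_bound (A : ℕ) : ∃ C : ℝ, 0 < C ∧ ∀ X : ℕ, 2 ≤ X → ∀ y : ℝ,
    |∑ k ∈ Icc 1 X, muR k * od k * sw (k * y)| ≤ C * (X / Real.log X ^ A) := by
  obtain ⟨N1, h1⟩ := sup_odd (A + 1)
  obtain ⟨N2, h2⟩ := mu_ap (A + 1) (2 * A)
  obtain ⟨N3, h3⟩ := ev_pow A
  obtain ⟨X0, hX0⟩ : ∃ X0 : ℕ, X0 = max (max N1 N2) (max N3 3) := ⟨_, rfl⟩
  -- large X
  have big : ∀ X : ℕ, X0 ≤ X → ∀ y : ℝ,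
      |∑ k ∈ Icc 1 X, muR k * od k * sw (k * y)| ≤ 10 * (X / Real.log X ^ A) := by
    intro X hX y
    have g1 := h1 X (by omega)
    have g2 := h2 X (by omega)
    obtain ⟨g3, g4⟩ := h3 X (by omega)
    have hX3 : 3 ≤ X := by omega
    have hXr : (3 : ℝ) ≤ X := by exact_mod_cast hX3
    have hXp : (0 : ℝ) < X := by linarith
    obtain ⟨L, hL⟩ : ∃ L : ℝ, L = Real.log X := ⟨_, rfl⟩
    rw [← hL] at g1 g2 g3 g4 ⊢
    have hL0 : 0 < L := by linarith
    have hL1 : 1 ≤ L := by linarith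
    have hLA : 1 ≤ L ^ A := one_le_pow₀ hL1
    have hLA0 : 0 < L ^ A := by positivity
    have hone : 1 ≤ X / L ^ A := by rw [le_div_iff₀ hLA0, one_mul]; exact g3
    obtain ⟨M, hM⟩ : ∃ M : ℕ, M = ⌈L ^ A⌉₊ := ⟨_, rfl⟩
    have hM1 : L ^ A ≤ M := by rw [hM]; exact Nat.le_ceil _
    have hM2 : (M : ℝ) < L ^ A + 1 := by rw [hM]; exact Nat.ceil_lt_add_one hLA0.le
    have hM3 : 1 ≤ M := by
      have : (1 : ℝ) ≤ M := hLA.trans hM1
      exact_mod_cast this
    rcases le_or_gt ((Icc 1 X).filter fun k : ℕ =>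
        |(k : ℝ) * y - round ((k : ℝ) * y)| < 1 / (X : ℝ) ^ 2).card (X / M + 1) with hc | hc
    · have h4 := case_one X M hX3 y (X / L ^ (A + 1)) g1 hc
      rw [← hL] at h4
      refine h4.trans ?_
      have h5 : (1 + 3 * L) * (X / L ^ (A + 1)) ≤ 4 * (X / L ^ A) := by
        have e1 : (4 : ℝ) * (X / L ^ A) = (4 * L) * (X / L ^ (A + 1)) := by
          rw [pow_succ]; field_simp
        rw [e1]
        gcongr
        linarith
      have h6 : (X : ℝ) / M ≤ X / L ^ A := div_le_div_of_nonneg_left hXp.le hLA0 hM1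
      linarith
    · obtain ⟨q, hq1, hq2, a, ha⟩ := pigeon X M hM3 y _ hc
      have hqM : (q : ℝ) + 1 ≤ M := by exact_mod_cast hq2
      have hqL : (q : ℝ) ≤ L ^ A := by linarith
      have h4 := case_two hq1 a X hX3 y (X / L ^ (2 * A)) ha (fun j => g2 (2 * q) (by omega) (by
        push_cast
        calc 2 * (q : ℝ) ≤ 2 * L ^ A := by gcongr
          _ ≤ L ^ A * L := by nlinarith
          _ = L ^ (A + 1) := by rw [pow_succ]) j X le_rfl)
      refine h4.trans ?_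
      have h5 : (q : ℝ) * (X / L ^ (2 * A)) ≤ X / L ^ A := by
        calc (q : ℝ) * (X / L ^ (2 * A)) ≤ L ^ A * (X / L ^ (2 * A)) := by gcongr
          _ = X / L ^ A := by rw [two_mul, pow_add]; field_simp
      linarith
  -- all X
  have hX03 : (3 : ℝ) ≤ X0 := by exact_mod_cast (by omega : 3 ≤ X0)
  have hlog0 : 1 < Real.log X0 := by
    have : Real.exp 1 < X0 := (Real.exp_one_lt_d9.trans (by norm_num)).trans_le hX03
    exact (Real.lt_log_iff_exp_lt (by linarith)).2 this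
  refine ⟨10 + Real.log X0 ^ A, by positivity, fun X hX y => ?_⟩
  have hXr : (2 : ℝ) ≤ X := by exact_mod_cast hX
  have hlog : 0 < Real.log X := Real.log_pos (by linarith)
  have hpos : 0 ≤ X / Real.log X ^ A := by positivity
  rcases le_or_gt X0 X with h | h
  · refine (big X h y).trans ?_
    have : 0 ≤ Real.log X0 ^ A * (X / Real.log X ^ A) := mul_nonneg (by positivity) hpos
    linarith
  · have h4 : |∑ k ∈ Icc 1 X, muR k * od k * sw (k * y)| ≤ X := by
      refine (abs_sum_le_sum_abs _ _).trans ?_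
      have h5 : ∀ k ∈ Icc 1 X, |muR k * od k * sw (k * y)| ≤ 1 := by
        intro k _
        rw [abs_mul]
        have := mo_abs k
        have := sw_abs (k * y)
        have := abs_nonneg (sw (k * y))
        have := abs_nonneg (muR k * od k)
        nlinarith
      refine (sum_le_sum h5).trans ?_
      rw [sum_const, Nat.card_Icc, nsmul_eq_mul, Nat.add_sub_cancel, mul_one]
    have h6 : Real.log X ^ A ≤ Real.log X0 ^ A := by
      gcongr
    have h7 : (X : ℝ) ≤ Real.log X0 ^ A * (X / Real.log X ^ A) := by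
      rw [mul_div_assoc', le_div_iff₀ (by positivity)]
      nlinarith
    linarith

end Q190.OB
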