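import Pool.Agent.Q190.OB.B

/-! # The Davenport series of the square wave converges uniformly -/

set_option autoImplicit false

namespace Q190.OB

open Finset Filter Topology
open Pool.Agent.H373R2.T7 (muR muR_abs)

/-- the square wave: the sign of `sin (2 π x)`, continuous from the right -/
noncomputable def sq (x : ℝ) : ℝ := if Int.fract x < 1 / 2 then 1 else -1

lemma sq_abs (x : ℝ) : |sq x| = 1 := by unfold sq; split_ifs <;> simp

lemma sq_eq (x : ℝ) : sq x = 4 * sw x - 2 * sw (2 * x) := by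
  have h0 := Int.fract_nonneg x
  have h1 := Int.fract_lt_one x
  have h2 := Int.self_sub_floor x
  unfold sq sw
  split_ifs with h
  · have : Int.fract (2 * x) = 2 * Int.fract x := by
      rw [Int.fract_eq_iff]
      refine ⟨by linarith, by linarith, 2 * ⌊x⌋, ?_⟩
      push_cast
      linarith
    rw [this]; ring
  · rw [not_lt] at h
    have : Int.fract (2 * x) = 2 * Int.fract x - 1 := by
      rw [Int.fract_eq_iff]
      refine ⟨by linarith, by linarith, 2 * ⌊x⌋ + 1, ?_⟩
      push_cast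
      linarith
    rw [this]; ring

lemma sq_add_int (x : ℝ) (m : ℤ) : sq (x + m) = sq x := by
  unfold sq; rw [Int.fract_add_intCast]

/-- partial summation -/
lemma parts (a : ℕ → ℝ) (K n : ℕ) (hK : 1 ≤ K) (hn : K ≤ n) :
    ∑ k ∈ Icc 1 n, a k / k - ∑ k ∈ Icc 1 K, a k / k =
      (∑ k ∈ Icc 1 n, a k) / n - (∑ k ∈ Icc 1 K, a k) / K +
        ∑ j ∈ Ico K n, (∑ k ∈ Icc 1 j, a k) / (j * (j + 1)) := by
  induction n, hn using Nat.le_induction with
  | base => simp
  | succ n hn ih =>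
    have hn0 : (0 : ℝ) < n := by exact_mod_cast (by omega : 0 < n)
    rw [sum_Icc_succ_top (by omega), sum_Icc_succ_top (by omega), sum_Ico_succ_top (by omega)]
    have h1 : ∑ k ∈ Icc 1 n, a k / k = ∑ k ∈ Icc 1 K, a k / k + ((∑ k ∈ Icc 1 n, a k) / n -
      (∑ k ∈ Icc 1 K, a k) / K + ∑ j ∈ Ico K n, (∑ k ∈ Icc 1 j, a k) / (j * (j + 1))) := by
      rw [← ih]; ring
    rw [h1]
    push_cast
    field_simp
    ring

lemma log_step (j : ℕ) (hj : 2 ≤ j) :
    1 / (((j : ℝ) + 1) * Real.log j ^ 2) ≤ 2 * (1 / Real.log j - 1 / Real.log ((j + 1 : ℕ) : ℝ)) := by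
  have hjr : (2 : ℝ) ≤ j := by exact_mod_cast hj
  have hj0 : (0 : ℝ) < j := by linarith
  have hl : 0 < Real.log j := Real.log_pos (by linarith)
  push_cast
  have hl1 : 0 < Real.log ((j : ℝ) + 1) := Real.log_pos (by linarith)
  have h1 : 1 / ((j : ℝ) + 1) ≤ Real.log ((j : ℝ) + 1) - Real.log j := by
    rw [← Real.log_div (by positivity) (by positivity)]
    have := Real.one_sub_inv_le_log_of_pos (x := ((j : ℝ) + 1) / j) (by positivity)
    refine le_trans (le_of_eq ?_) this
    field_simp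
    ring
  have h2 : Real.log ((j : ℝ) + 1) ≤ 2 * Real.log j := by
    have : Real.log ((j : ℝ) + 1) ≤ Real.log ((j : ℝ) ^ 2) :=
      Real.log_le_log (by positivity) (by nlinarith)
    rwa [Real.log_pow] at this
  have h3 : 2 * (1 / Real.log j - 1 / Real.log ((j : ℝ) + 1)) =
      2 * (Real.log ((j : ℝ) + 1) - Real.log j) / (Real.log j * Real.log ((j : ℝ) + 1)) := by
    field_simp
  rw [h3, div_le_div_iff₀ (by positivity) (by positivity), one_mul]
  have h4 : Real.log j * Real.log ((j : ℝ) + 1) ≤ 2 * Real.log j ^ 2 := by nlinarith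
  have h5 : 1 ≤ ((j : ℝ) + 1) * (Real.log ((j : ℝ) + 1) - Real.log j) := by
    rw [div_le_iff₀ (by positivity)] at h1
    linarith
  have h6 : 0 < Real.log j ^ 2 := by positivity
  calc Real.log j * Real.log ((j : ℝ) + 1) ≤ 2 * Real.log j ^ 2 := h4
    _ = (2 * Real.log j ^ 2) * 1 := (mul_one _).symm
    _ ≤ (2 * Real.log j ^ 2) * (((j : ℝ) + 1) * (Real.log ((j : ℝ) + 1) - Real.log j)) := by
        gcongr
    _ = _ := by ring

lemma log_sum (K n : ℕ) (hK : 2 ≤ K) (hn : K ≤ n) :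
    ∑ j ∈ Ico K n, 1 / (((j : ℝ) + 1) * Real.log j ^ 2) ≤ 2 * (1 / Real.log K - 1 / Real.log n) := by
  induction n, hn using Nat.le_induction with
  | base => simp
  | succ n hn ih =>
    rw [sum_Ico_succ_top (by omega)]
    have := log_step n (by omega)
    linarith

lemma tail (A : ℕ) (a : ℕ → ℝ) (C : ℝ) (hC : 0 ≤ C)
    (h : ∀ X : ℕ, 2 ≤ X → |∑ k ∈ Icc 1 X, a k| ≤ C * (X / Real.log X ^ (A + 2)))
    (K n : ℕ) (hK : 2 ≤ K) (hn : K ≤ n) :
    |∑ k ∈ Icc 1 n, a k / k - ∑ k ∈ Icc 1 K, a k / k| ≤ 8 * C / Real.log K ^ A := by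
  have hKr : (2 : ℝ) ≤ K := by exact_mod_cast hK
  have hl2 : (0.69 : ℝ) < Real.log K :=
    (by linarith [Real.log_two_gt_d9] : (0.69 : ℝ) < Real.log 2).trans_le
      (Real.log_le_log (by norm_num) hKr)
  have hlK : 0 < Real.log K := by linarith
  have one : ∀ X : ℕ, K ≤ X → |(∑ k ∈ Icc 1 X, a k) / X| ≤ C / Real.log K ^ (A + 2) := by
    intro X hX
    have hXr : (K : ℝ) ≤ X := by exact_mod_cast hX
    have hX0 : (0 : ℝ) < X := by linarith
    rw [abs_div, abs_of_pos hX0, div_le_iff₀ hX0]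
    refine (h X (by omega)).trans ?_
    have h1 : Real.log K ^ (A + 2) ≤ Real.log X ^ (A + 2) := by
      gcongr
    calc C * (X / Real.log X ^ (A + 2)) ≤ C * (X / Real.log K ^ (A + 2)) := by gcongr
      _ = _ := by ring
  rw [parts a K n (by omega) hn]
  have h2 : |∑ j ∈ Ico K n, (∑ k ∈ Icc 1 j, a k) / (j * (j + 1))| ≤ 2 * C / Real.log K ^ (A + 1) := by
    refine (abs_sum_le_sum_abs _ _).trans ?_
    have h3 : ∀ j ∈ Ico K n, |(∑ k ∈ Icc 1 j, a k) / (j * (j + 1))| ≤
        (C / Real.log K ^ A) * (1 / (((j : ℝ) + 1) * Real.log j ^ 2)) := by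
      intro j hj
      rw [mem_Ico] at hj
      have hjr : (K : ℝ) ≤ j := by exact_mod_cast hj.1
      have hj0 : (0 : ℝ) < j := by linarith
      have hlj : Real.log K ≤ Real.log j := Real.log_le_log (by linarith) hjr
      rw [abs_div, abs_of_pos (by positivity : (0 : ℝ) < j * (j + 1)), div_le_iff₀ (by positivity)]
      refine (h j (by omega)).trans ?_
      have h4 : Real.log K ^ A ≤ Real.log j ^ A := by gcongr
      have h5 : 0 < Real.log j := by linarith
      calc C * (j / Real.log j ^ (A + 2)) = (C * j / Real.log j ^ 2) * (1 / Real.log j ^ A) := by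
            rw [pow_add]; field_simp
        _ ≤ (C * j / Real.log j ^ 2) * (1 / Real.log K ^ A) := by gcongr
        _ = _ := by field_simp
    refine (sum_le_sum h3).trans ?_
    rw [← mul_sum]
    have h6 := log_sum K n hK hn
    have h7 : 0 ≤ 1 / Real.log n := by
      have : (2 : ℝ) ≤ n := hKr.trans (by exact_mod_cast hn)
      have : 0 < Real.log n := Real.log_pos (by linarith)
      positivity
    calc C / Real.log K ^ A * ∑ j ∈ Ico K n, 1 / (((j : ℝ) + 1) * Real.log j ^ 2)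
        ≤ C / Real.log K ^ A * (2 * (1 / Real.log K)) := by
          gcongr
          linarith
      _ = _ := by rw [pow_succ]; field_simp
  have h8 := one n hn
  have h9 := one K le_rfl
  have h10 := abs_add_le ((∑ k ∈ Icc 1 n, a k) / n - (∑ k ∈ Icc 1 K, a k) / K)
    (∑ j ∈ Ico K n, (∑ k ∈ Icc 1 j, a k) / (j * (j + 1)))
  have h11 := abs_sub ((∑ k ∈ Icc 1 n, a k) / n) ((∑ k ∈ Icc 1 K, a k) / K)
  have e1 : C / Real.log K ^ (A + 2) ≤ 2.2 * C / Real.log K ^ A := by
    have hp : 0 < Real.log K ^ A := by positivity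
    rw [pow_add, div_le_div_iff₀ (by positivity) hp]
    have : 1 ≤ 2.2 * Real.log K ^ 2 := by nlinarith
    calc C * Real.log K ^ A = (C * Real.log K ^ A) * 1 := (mul_one _).symm
      _ ≤ (C * Real.log K ^ A) * (2.2 * Real.log K ^ 2) := by gcongr
      _ = _ := by ring
  have e2 : 2 * C / Real.log K ^ (A + 1) ≤ 3 * C / Real.log K ^ A := by
    have hp : 0 < Real.log K ^ A := by positivity
    rw [pow_succ, div_le_div_iff₀ (by positivity) hp]
    have : 2 ≤ 3 * Real.log K := by linarith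
    calc 2 * C * Real.log K ^ A = (C * Real.log K ^ A) * 2 := by ring
      _ ≤ (C * Real.log K ^ A) * (3 * Real.log K) := by gcongr
      _ = _ := by ring
  have e3 : 8 * C / Real.log K ^ A = 2.2 * C / Real.log K ^ A + 2.2 * C / Real.log K ^ A +
      3 * C / Real.log K ^ A + 0.6 * C / Real.log K ^ A := by ring
  have e4 : 0 ≤ 0.6 * C / Real.log K ^ A := by positivity
  rw [e3]
  linarith

/-- the partial sums of the Davenport series -/
noncomputable def TT (K : ℕ) (y : ℝ) : ℝ := ∑ k ∈ Icc 1 K, muR k * od k * sq (k * y) / k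

theorem TT_cauchy (A : ℕ) : ∃ C : ℝ, 0 < C ∧ ∀ K : ℕ, 2 ≤ K → ∀ n : ℕ, K ≤ n → ∀ y : ℝ,
    |TT n y - TT K y| ≤ C / Real.log K ^ A := by
  obtain ⟨C, hC, h⟩ := saw_bound (A + 2)
  refine ⟨8 * (6 * C), by positivity, fun K hK n hn y => ?_⟩
  refine tail A (fun k => muR k * od k * sq (k * y)) (6 * C) (by positivity) (fun X hX => ?_) K n hK hn
  have h1 := h X hX y
  have h2 := h X hX (2 * y)
  have h3 : ∑ k ∈ Icc 1 X, muR k * od k * sq (k * y) =
      4 * ∑ k ∈ Icc 1 X, muR k * od k * sw (k * y) - 2 * ∑ k ∈ Icc 1 X, muR k * od k * sw (k * (2 * y)) := by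
    rw [mul_sum, mul_sum, ← sum_sub_distrib]
    refine sum_congr rfl fun k _ => ?_
    rw [sq_eq]
    have : (2 : ℝ) * (k * y) = k * (2 * y) := by ring
    rw [this]
    ring
  rw [h3]
  have h4 := abs_sub (4 * ∑ k ∈ Icc 1 X, muR k * od k * sw (k * y))
    (2 * ∑ k ∈ Icc 1 X, muR k * od k * sw (k * (2 * y)))
  rw [abs_mul, abs_mul, abs_of_pos (by norm_num : (0 : ℝ) < 4), abs_of_pos (by norm_num : (0 : ℝ) < 2)] at h4
  linarith

end Q190.OB
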