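import Pool.Agent.Q190.OB.C

/-! # The sum of the Davenport series of the square wave -/

set_option autoImplicit false

namespace Q190.OB

open Finset Filter Topology MeasureTheory
open Pool.Agent.H807R2.Dav (ee norm_ee ee_add ee_int ee_pow ee_eq ee_zero)
open Pool.Agent.H373R2.T7 (muR muR_abs)

lemma ee_cont : Continuous ee := by
  unfold ee
  fun_prop

lemma ee_hasDeriv (c x : ℝ) :
    HasDerivAt (fun y : ℝ => ee (c * y)) (2 * Real.pi * Complex.I * c * ee (c * x)) x := by
  unfold ee
  have h1 : HasDerivAt (fun y : ℝ => (2 * (Real.pi : ℂ) * Complex.I * ((c * y : ℝ) : ℂ)))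
      (2 * (Real.pi : ℂ) * Complex.I * c) x := by
    have h2 : HasDerivAt (fun y : ℝ => ((c * y : ℝ) : ℂ)) (c : ℂ) x := by
      have := ((hasDerivAt_id x).const_mul c).ofReal_comp
      simpa using this
    exact h2.const_mul _
  have h3 := h1.cexp
  convert h3 using 1
  ring

lemma ee_integral {c : ℝ} (hc : c ≠ 0) (s t : ℝ) :
    ∫ y in s..t, ee (c * y) = (ee (c * t) - ee (c * s)) / (2 * Real.pi * Complex.I * c) := by
  have hcc : (2 * (Real.pi : ℂ) * Complex.I * c) ≠ 0 := by
    simp [hc, Real.pi_ne_zero]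
  have h1 : ∀ x ∈ Set.uIcc s t, HasDerivAt (fun y : ℝ => ee (c * y) / (2 * Real.pi * Complex.I * c))
      (ee (c * x)) x := by
    intro x _
    have := (ee_hasDeriv c x).div_const (2 * Real.pi * Complex.I * c)
    rwa [mul_div_cancel_left₀ _ hcc] at this
  rw [intervalIntegral.integral_eq_sub_of_hasDerivAt h1]
  · rw [sub_div]
  · exact (ee_cont.comp (continuous_const.mul continuous_id)).intervalIntegrable _ _

/-- orthogonality -/
lemma ee_orth (m : ℤ) : ∫ y in (0 : ℝ)..1, ee (m * y) = if m = 0 then 1 else 0 := by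
  split_ifs with h
  · subst h
    simp [ee_zero]
  · rw [ee_integral (by exact_mod_cast h), mul_one, mul_zero, ee_zero, ee_int, sub_self, zero_div]

lemma geom_zero (k : ℕ) (hk : 1 ≤ k) (m : ℤ) (h : ¬ (k : ℤ) ∣ m) :
    ∑ j ∈ range k, ee (-m * j / k) = 0 := by
  have hkr : (k : ℝ) ≠ 0 := by exact_mod_cast (by omega : k ≠ 0)
  obtain ⟨z, hz⟩ : ∃ z : ℂ, z = ee (-m / k) := ⟨_, rfl⟩
  have h1 : ∀ j ∈ range k, ee (-m * j / k) = z ^ j := by
    intro j _
    rw [hz, ← ee_pow]
    congr 1; ring
  rw [sum_congr rfl h1]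
  have h2 : z ^ k = 1 := by
    rw [hz, ← ee_pow]
    have : (k : ℝ) * (-m / k) = ((-m : ℤ) : ℝ) := by push_cast; field_simp
    rw [this, ee_int]
  have h3 : z ≠ 1 := by
    intro h4
    apply h
    rw [hz, ee, Complex.exp_eq_one_iff] at h4
    obtain ⟨n, hn⟩ := h4
    have h5 : (2 * (Real.pi : ℂ) * Complex.I) ≠ 0 := by simp [Real.pi_ne_zero]
    have h6 : (((-m / k : ℝ)) : ℂ) = n := by
      apply mul_left_cancel₀ h5
      rw [hn]; ring
    have h7 : (-m / k : ℝ) = n := by exact_mod_cast h6
    rw [div_eq_iff hkr] at h7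
    have h8 : -m = n * k := by exact_mod_cast h7
    exact ⟨-n, by linear_combination -h8⟩
  have h4 := mul_geom_sum z k
  rw [h2, sub_self] at h4
  exact (mul_eq_zero.1 h4).resolve_left (sub_ne_zero.2 h3)

/-- Fourier coefficients of a dilate -/
lemma dilate (f : ℝ → ℂ) (hf : Function.Periodic f 1)
    (hi : ∀ s t : ℝ, IntervalIntegrable f volume s t) (k : ℕ) (hk : 1 ≤ k) (m : ℤ) :
    ∫ y in (0 : ℝ)..1, f (k * y) * ee (-m * y) =
      if (k : ℤ) ∣ m then ∫ u in (0 : ℝ)..1, f u * ee (-(m / k : ℤ) * u) else 0 := by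
  have hk0 : (k : ℝ) ≠ 0 := by exact_mod_cast (by omega : k ≠ 0)
  have hkc : (k : ℂ) ≠ 0 := by exact_mod_cast (by omega : k ≠ 0)
  obtain ⟨g, hg⟩ : ∃ g : ℝ → ℂ, g = fun u => f u * ee (-m / k * u) := ⟨_, rfl⟩
  have hgi : ∀ s t : ℝ, IntervalIntegrable g volume s t := by
    intro s t
    rw [hg]
    exact (hi s t).mul_continuousOn ((ee_cont.comp (continuous_const.mul continuous_id)).continuousOn)
  have h1 : ∫ y in (0 : ℝ)..1, f (k * y) * ee (-m * y) = (k : ℝ)⁻¹ • ∫ u in (0 : ℝ)..k, g u := by
    have h2 := intervalIntegral.integral_comp_mul_left (a := 0) (b := 1) g hk0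
    rw [mul_zero, mul_one] at h2
    rw [← h2]
    refine intervalIntegral.integral_congr fun y _ => ?_
    simp only [hg]
    congr 2
    field_simp
  have h3 : ∫ u in (0 : ℝ)..k, g u = ∑ j ∈ range k, ∫ u in (j : ℝ)..((j + 1 : ℕ) : ℝ), g u := by
    have := intervalIntegral.sum_integral_adjacent_intervals (μ := volume) (f := g)
      (a := fun j : ℕ => (j : ℝ)) (n := k) fun j _ => hgi _ _
    rw [Nat.cast_zero] at this
    exact this.symm
  have h4 : ∀ j ∈ range k, ∫ u in (j : ℝ)..((j + 1 : ℕ) : ℝ), g u =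
      ee (-m * j / k) * ∫ u in (0 : ℝ)..1, f u * ee (-m / k * u) := by
    intro j _
    have h5 := intervalIntegral.integral_comp_add_right (a := 0) (b := 1) g (j : ℝ)
    rw [zero_add] at h5
    have h6 : ((j + 1 : ℕ) : ℝ) = 1 + j := by push_cast; ring
    rw [h6, ← h5, ← intervalIntegral.integral_const_mul]
    refine intervalIntegral.integral_congr fun u _ => ?_
    simp only [hg]
    have h7 : f (u + j) = f u := by
      have := hf.nat_mul j u
      rwa [mul_one] at this
    have h8 : ee (-m / k * (u + j)) = ee (-m / k * u) * ee (-m * j / k) := by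
      rw [← ee_add]; congr 1; ring
    rw [h7, h8]; ring
  rw [h1, h3, sum_congr rfl h4, ← sum_mul]
  split_ifs with h
  · obtain ⟨c, hc⟩ := h
    have hkz : (k : ℤ) ≠ 0 := by omega
    have h9 : m / (k : ℤ) = c := by rw [hc]; exact Int.mul_ediv_cancel_left c hkz
    have h10 : ∀ j ∈ range k, ee (-m * j / k) = 1 := by
      intro j _
      have : (-m * j / k : ℝ) = ((-c * j : ℤ) : ℝ) := by
        rw [hc]; push_cast; field_simp
      rw [this, ee_int]
    rw [sum_congr rfl h10, sum_const, card_range, nsmul_eq_mul, mul_one, h9, Complex.real_smul]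
    push_cast
    rw [← mul_assoc, inv_mul_cancel₀ hkc, one_mul]
    refine intervalIntegral.integral_congr fun u _ => ?_
    congr 2
    rw [hc]; push_cast; field_simp
  · rw [geom_zero k hk m h, zero_mul, smul_zero]

lemma sq_meas : Measurable sq := by
  unfold sq
  exact Measurable.ite (measurableSet_lt measurable_fract measurable_const) measurable_const
    measurable_const

/-- the square wave as a complex function -/
noncomputable def sqc (x : ℝ) : ℂ := (sq x : ℂ)

lemma sqc_per : Function.Periodic sqc 1 := by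
  intro x
  unfold sqc
  have := sq_add_int x 1
  rw [Int.cast_one] at this
  rw [this]

lemma bdd_int {f : ℝ → ℂ} (hf : Measurable f) (C : ℝ) (h : ∀ x, ‖f x‖ ≤ C) (s t : ℝ) :
    IntervalIntegrable f volume s t := by
  refine (intervalIntegrable_const (c := C)).mono_fun hf.aestronglyMeasurable ?_
  refine Eventually.of_forall fun x => ?_
  rw [Real.norm_eq_abs]
  exact (h x).trans (le_abs_self C)

lemma sqc_meas : Measurable sqc := Complex.measurable_ofReal.comp sq_meas

lemma sqc_int (s t : ℝ) : IntervalIntegrable sqc volume s t :=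
  bdd_int sqc_meas 1 (fun x => by rw [sqc, Complex.norm_real, Real.norm_eq_abs, sq_abs]) s t

lemma ee_neg_half (j : ℤ) : ee (-j * (1 / 2)) = if Odd j then -1 else 1 := by
  rcases Int.even_or_odd j with h | h
  · rw [if_neg (Int.not_odd_iff_even.2 h)]
    obtain ⟨c, rfl⟩ := h
    have : (-((c + c : ℤ) : ℝ) * (1 / 2)) = ((-c : ℤ) : ℝ) := by push_cast; ring
    rw [this, ee_int]
  · rw [if_pos h]
    obtain ⟨c, rfl⟩ := h
    have : (-((2 * c + 1 : ℤ) : ℝ) * (1 / 2)) = 1 / 2 + ((-c - 1 : ℤ) : ℝ) := by push_cast; ring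
    rw [this, ee_add, ee_int, ee_half, mul_one]

/-- Fourier coefficients of the square wave -/
lemma sq_coef (j : ℤ) : ∫ u in (0 : ℝ)..1, sqc u * ee (-j * u) =
    if Odd j then 2 / (Real.pi * Complex.I * j) else 0 := by
  have hI : IntervalIntegrable (fun u => sqc u * ee (-j * u)) volume 0 (1 / 2) :=
    (sqc_int _ _).mul_continuousOn ((ee_cont.comp (continuous_const.mul continuous_id)).continuousOn)
  have hI' : IntervalIntegrable (fun u => sqc u * ee (-j * u)) volume (1 / 2) 1 :=
    (sqc_int _ _).mul_continuousOn ((ee_cont.comp (continuous_const.mul continuous_id)).continuousOn)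
  rw [← intervalIntegral.integral_add_adjacent_intervals hI hI']
  have h1 : ∫ u in (0 : ℝ)..(1 / 2), sqc u * ee (-j * u) = ∫ u in (0 : ℝ)..(1 / 2), ee (-j * u) := by
    rw [intervalIntegral.integral_of_le (by norm_num), intervalIntegral.integral_of_le (by norm_num),
      integral_Ioc_eq_integral_Ioo, integral_Ioc_eq_integral_Ioo]
    refine setIntegral_congr_fun measurableSet_Ioo fun u hu => ?_
    have : sq u = 1 := by
      unfold sq
      rw [Int.fract_eq_self.2 ⟨hu.1.le, by linarith [hu.2]⟩, if_pos hu.2]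
    simp only [sqc, this, Complex.ofReal_one, one_mul]
  have h2 : ∫ u in (1 / 2 : ℝ)..1, sqc u * ee (-j * u) = -∫ u in (1 / 2 : ℝ)..1, ee (-j * u) := by
    rw [← intervalIntegral.integral_neg, intervalIntegral.integral_of_le (by norm_num),
      intervalIntegral.integral_of_le (by norm_num), integral_Ioc_eq_integral_Ioo,
      integral_Ioc_eq_integral_Ioo]
    refine setIntegral_congr_fun measurableSet_Ioo fun u hu => ?_
    have : sq u = -1 := by
      unfold sq
      rw [Int.fract_eq_self.2 ⟨by linarith [hu.1], hu.2⟩, if_neg (by linarith [hu.1])]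
    simp only [sqc, this]
    push_cast
    ring
  rw [h1, h2]
  rcases eq_or_ne j 0 with h0 | h0
  · subst h0
    have : ¬ Odd (0 : ℤ) := by decide
    rw [if_neg this]
    simp only [Int.cast_zero, neg_zero, zero_mul, ee_zero]
    rw [intervalIntegral.integral_const, intervalIntegral.integral_const]
    norm_num
  · have hj : (-(j : ℝ)) ≠ 0 := neg_ne_zero.2 (by exact_mod_cast h0)
    have hjc : (j : ℂ) ≠ 0 := by exact_mod_cast h0
    have hpi : (Real.pi : ℂ) ≠ 0 := by exact_mod_cast Real.pi_ne_zero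
    rw [ee_integral hj, ee_integral hj, ee_neg_half, mul_zero, ee_zero, mul_one]
    have h3 : ee (-(j : ℝ)) = 1 := by
      have : -(j : ℝ) = ((-j : ℤ) : ℝ) := by push_cast; ring
      rw [this, ee_int]
    rw [h3]
    split_ifs with h4
    · push_cast
      field_simp
      ring
    · simp

/-- Fourier coefficients of the partial sums -/
lemma TT_coef (K : ℕ) (m : ℤ) : ∫ y in (0 : ℝ)..1, (TT K y : ℂ) * ee (-m * y) =
    ∑ k ∈ Icc 1 K, ((muR k * od k / k : ℝ) : ℂ) *
      (if (k : ℤ) ∣ m then (if Odd (m / k) then 2 / (Real.pi * Complex.I * (m / k : ℤ)) else 0) else 0) := by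
  have h1 : ∀ y : ℝ, (TT K y : ℂ) * ee (-m * y) =
      ∑ k ∈ Icc 1 K, ((muR k * od k / k : ℝ) : ℂ) * (sqc (k * y) * ee (-m * y)) := by
    intro y
    unfold TT sqc
    rw [Complex.ofReal_sum, sum_mul]
    refine sum_congr rfl fun k _ => ?_
    push_cast
    ring
  simp_rw [h1]
  rw [intervalIntegral.integral_finsetSum]
  · refine sum_congr rfl fun k hk => ?_
    rw [intervalIntegral.integral_const_mul, dilate sqc sqc_per sqc_int k (mem_Icc.1 hk).1 m]
    congr 1
    split_ifs with h2 h3
    · rw [sq_coef, if_pos h3]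
    · rw [sq_coef, if_neg h3]
    · rfl
  · intro k _
    refine IntervalIntegrable.const_mul ?_ _
    refine IntervalIntegrable.mul_continuousOn ?_ ((ee_cont.comp (continuous_const.mul continuous_id)).continuousOn)
    exact bdd_int (sqc_meas.comp (measurable_const.mul measurable_id)) 1
      (fun x => by rw [Function.comp_apply, sqc, Complex.norm_real, Real.norm_eq_abs, sq_abs]) _ _

lemma mu_sum (n : ℕ) (hn : n ≠ 0) : ∑ k ∈ n.divisors, muR k = if n = 1 then 1 else 0 := by
  have h1 : ((ArithmeticFunction.moebius * (ArithmeticFunction.zeta : ArithmeticFunction ℤ)) n : ℤ) =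
      (1 : ArithmeticFunction ℤ) n := by
    rw [ArithmeticFunction.moebius_mul_coe_zeta]
  rw [ArithmeticFunction.coe_mul_zeta_apply, ArithmeticFunction.one_apply] at h1
  unfold muR
  exact_mod_cast h1

lemma coef_sum (m : ℤ) (hm : m ≠ 0) (K : ℕ) (hK : m.natAbs ≤ K) :
    ∑ k ∈ Icc 1 K, ((muR k * od k / k : ℝ) : ℂ) *
      (if (k : ℤ) ∣ m then (if Odd (m / k) then 2 / (Real.pi * Complex.I * (m / k : ℤ)) else 0) else 0) =
    if m.natAbs = 1 then 2 / (Real.pi * Complex.I * m) else 0 := by
  have hn : m.natAbs ≠ 0 := Int.natAbs_ne_zero.2 hm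
  have hpi : (Real.pi : ℂ) ≠ 0 := by exact_mod_cast Real.pi_ne_zero
  have hmc : (m : ℂ) ≠ 0 := by exact_mod_cast hm
  have h1 : ∀ k ∈ Icc 1 K, ((muR k * od k / k : ℝ) : ℂ) *
      (if (k : ℤ) ∣ m then (if Odd (m / k) then 2 / (Real.pi * Complex.I * (m / k : ℤ)) else 0) else 0) =
      if k ∈ m.natAbs.divisors then (if Odd m then ((muR k : ℝ) : ℂ) * (2 / (Real.pi * Complex.I * m)) else 0)
        else 0 := by
    intro k hk
    rw [mem_Icc] at hk
    have hkc : (k : ℂ) ≠ 0 := by exact_mod_cast (by omega : k ≠ 0)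
    have hdiv : (k : ℤ) ∣ m ↔ k ∈ m.natAbs.divisors := by
      rw [Nat.mem_divisors, Int.natCast_dvd]
      exact ⟨fun h => ⟨h, hn⟩, fun h => h.1⟩
    by_cases hd : (k : ℤ) ∣ m
    · rw [if_pos hd, if_pos (hdiv.1 hd)]
      obtain ⟨c, hc⟩ := hd
      have hkz : (k : ℤ) ≠ 0 := by omega
      have h9 : m / (k : ℤ) = c := by rw [hc]; exact Int.mul_ediv_cancel_left c hkz
      rw [h9]
      have hodd : Odd m ↔ Odd (k : ℤ) ∧ Odd c := by rw [hc]; exact Int.odd_mul
      have hcc : (c : ℂ) ≠ 0 := by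
        intro h0
        apply hm
        have : c = 0 := by exact_mod_cast h0
        rw [hc, this, mul_zero]
      by_cases hk2 : Odd (k : ℤ)
      · have hk2' : k % 2 = 1 := by
          have : Odd k := by exact_mod_cast hk2
          exact Nat.odd_iff.1 this
        have h10 : od k = 1 := by unfold od; rw [if_pos hk2']
        by_cases hc2 : Odd c
        · rw [if_pos hc2, if_pos (hodd.2 ⟨hk2, hc2⟩), h10, hc]
          push_cast
          field_simp
        · rw [if_neg hc2, if_neg (fun h => hc2 (hodd.1 h).2), mul_zero]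
      · have hk2' : ¬ k % 2 = 1 := by
          intro h
          apply hk2
          have : Odd k := Nat.odd_iff.2 h
          exact_mod_cast this
        have h10 : od k = 0 := by unfold od; rw [if_neg hk2']
        rw [h10, if_neg (fun h => hk2 (hodd.1 h).1)]
        simp
    · rw [if_neg hd, if_neg (fun h => hd (hdiv.2 h)), mul_zero]
  rw [sum_congr rfl h1, ← sum_filter]
  have h2 : (Icc 1 K).filter (fun k => k ∈ m.natAbs.divisors) = m.natAbs.divisors := by
    ext k
    rw [mem_filter, mem_Icc]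
    refine ⟨fun h => h.2, fun h => ⟨⟨Nat.pos_of_mem_divisors h, ?_⟩, h⟩⟩
    exact (Nat.divisor_le h).trans hK
  rw [h2]
  by_cases ho : Odd m
  · simp only [if_pos ho]
    rw [← sum_mul]
    have h3 := mu_sum m.natAbs hn
    have h4 : ∑ k ∈ m.natAbs.divisors, ((muR k : ℝ) : ℂ) = if m.natAbs = 1 then 1 else 0 := by
      rw [← Complex.ofReal_sum, h3]
      split_ifs <;> simp
    rw [h4]
    split_ifs <;> simp
  · simp only [if_neg ho, sum_const_zero]
    have h5 : m.natAbs ≠ 1 := by
      intro h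
      apply ho
      rcases Int.natAbs_eq_iff.1 h with h6 | h6 <;> rw [h6] <;> decide
    rw [if_neg h5]

end Q190.OB
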