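import Pool.Agent.Q190.OB.E
import Pool.Agent.Q241.SW.C

/-! # Means of cosines and sines against the frequencies of their signs -/

set_option autoImplicit false

namespace Q190.OB

open Finset Filter Topology
open Pool.Agent.H373R2.T7 (muR muR_abs)

/-- the number of `n < N` with `{y n} ∈ [1 / 4, 3 / 4)` -/
noncomputable def mid (y : ℕ → ℝ) (N : ℕ) : ℕ :=
  ((range N).filter fun n => 1 / 4 ≤ Int.fract (y n) ∧ Int.fract (y n) < 3 / 4).card

/-- the number of `n < N` with `{y n} < 1 / 2` -/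
noncomputable def low (y : ℕ → ℝ) (N : ℕ) : ℕ :=
  ((range N).filter fun n => Int.fract (y n) < 1 / 2).card

lemma sq_quarter (u : ℝ) : sq (u + 1 / 4) =
    1 - 2 * (if 1 / 4 ≤ Int.fract u ∧ Int.fract u < 3 / 4 then 1 else 0) := by
  have h0 := Int.fract_nonneg u
  have h1 := Int.fract_lt_one u
  have h2 := Int.self_sub_floor u
  unfold sq
  rcases lt_or_ge (Int.fract u) (3 / 4) with h3 | h3
  · have : Int.fract (u + 1 / 4) = Int.fract u + 1 / 4 := by
      rw [Int.fract_eq_iff]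
      exact ⟨by linarith, by linarith, ⌊u⌋, by linarith⟩
    rw [this]
    rcases lt_or_ge (Int.fract u) (1 / 4) with h4 | h4
    · rw [if_pos (by linarith), if_neg (by intro h; linarith [h.1])]; ring
    · rw [if_neg (by linarith), if_pos ⟨h4, h3⟩]; ring
  · have : Int.fract (u + 1 / 4) = Int.fract u + 1 / 4 - 1 := by
      rw [Int.fract_eq_iff]
      refine ⟨by linarith, by linarith, ⌊u⌋ + 1, ?_⟩
      push_cast
      linarith
    rw [this, if_pos (by linarith), if_neg (by intro h; linarith [h.2])]; ring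

lemma sq_half (u : ℝ) : sq (u + 1 / 2) = -sq u := by
  have h0 := Int.fract_nonneg u
  have h1 := Int.fract_lt_one u
  have h2 := Int.self_sub_floor u
  unfold sq
  rcases lt_or_ge (Int.fract u) (1 / 2) with h3 | h3
  · have : Int.fract (u + 1 / 2) = Int.fract u + 1 / 2 := by
      rw [Int.fract_eq_iff]
      exact ⟨by linarith, by linarith, ⌊u⌋, by linarith⟩
    rw [this, if_neg (by linarith), if_pos h3]
  · have : Int.fract (u + 1 / 2) = Int.fract u + 1 / 2 - 1 := by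
      rw [Int.fract_eq_iff]
      refine ⟨by linarith, by linarith, ⌊u⌋ + 1, ?_⟩
      push_cast
      linarith
    rw [this, if_pos (by linarith), if_neg (by linarith)]; ring

/-- a quarter shift of an odd dilate is the quarter shift up to the sign -/
lemma sq_odd (k : ℕ) (hk : k % 2 = 1) : ∃ s : ℝ, |s| = 1 ∧ ∀ y : ℝ,
    sq (k * (y + 1 / 4)) = s * sq (k * y + 1 / 4) := by
  rcases (by omega : k % 4 = 1 ∨ k % 4 = 3) with h | h
  · refine ⟨1, abs_one, fun y => ?_⟩
    have h1 : (k : ℝ) = 4 * ((k / 4 : ℕ) : ℝ) + 1 := by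
      have : k = 4 * (k / 4) + 1 := by omega
      exact_mod_cast this
    have h2 : (k : ℝ) * (y + 1 / 4) = (k * y + 1 / 4) + (((k / 4 : ℕ) : ℤ) : ℝ) := by
      rw [Int.cast_natCast]
      linear_combination (1 / 4) * h1
    rw [h2, sq_add_int, one_mul]
  · refine ⟨-1, by norm_num, fun y => ?_⟩
    have h1 : (k : ℝ) = 4 * ((k / 4 : ℕ) : ℝ) + 3 := by
      have : k = 4 * (k / 4) + 3 := by omega
      exact_mod_cast this
    have h2 : (k : ℝ) * (y + 1 / 4) = ((k * y + 1 / 4) + 1 / 2) + (((k / 4 : ℕ) : ℤ) : ℝ) := by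
      rw [Int.cast_natCast]
      linear_combination (1 / 4) * h1
    rw [h2, sq_add_int, sq_half]; ring

lemma sum_mid (y : ℕ → ℝ) (N : ℕ) : ∑ n ∈ range N, sq (y n + 1 / 4) = N - 2 * mid y N := by
  simp_rw [sq_quarter]
  rw [sum_sub_distrib, ← mul_sum, sum_ite, sum_const_zero, add_zero, sum_const, sum_const,
    card_range]
  simp [mid]

lemma sum_low (y : ℕ → ℝ) (N : ℕ) : ∑ n ∈ range N, sq (y n) = 2 * low y N - N := by
  have h1 : ∀ n, sq (y n) = 2 * (if Int.fract (y n) < 1 / 2 then 1 else 0) - 1 := by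
    intro n; unfold sq; split_ifs <;> ring
  simp_rw [h1]
  rw [sum_sub_distrib, ← mul_sum, sum_ite, sum_const_zero, add_zero, sum_const, sum_const,
    card_range]
  simp [low]

/-- abstract form: averaging the Davenport expansion -/
lemma avg_dav (A : ℕ) : ∃ C : ℝ, 0 < C ∧ ∀ K : ℕ, 2 ≤ K → ∀ N : ℕ, 1 ≤ N → ∀ z : ℕ → ℝ, ∀ d : ℕ → ℝ,
    (∀ k ∈ (Icc 1 K).filter (fun k => k % 2 = 1), |(∑ n ∈ range N, sq (k * z n)) / N| ≤ d k) →
    |(∑ n ∈ range N, Real.sin (2 * Real.pi * z n)) / N| ≤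
      C / Real.log K ^ A + ∑ k ∈ (Icc 1 K).filter (fun k => k % 2 = 1), d k / k := by
  obtain ⟨C, hC, h⟩ := dav A
  refine ⟨C, hC, fun K hK N hN z d hd => ?_⟩
  have hNr : (0 : ℝ) < N := by exact_mod_cast hN
  have hpi := Real.pi_pos
  have hlog : 0 < Real.log K := Real.log_pos (by
    have : (2 : ℝ) ≤ K := by exact_mod_cast hK
    linarith)
  obtain ⟨E, hE⟩ : ∃ E : ℝ, E = C / Real.log K ^ A := ⟨_, rfl⟩
  have hE0 : 0 ≤ E := by rw [hE]; positivity
  rw [← hE]
  -- the mean of the partial sums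
  have h1 : (∑ n ∈ range N, TT K (z n)) / N =
      ∑ k ∈ (Icc 1 K).filter (fun k => k % 2 = 1), muR k * ((∑ n ∈ range N, sq (k * z n)) / N) / k := by
    unfold TT
    rw [sum_comm, sum_div, sum_filter]
    refine sum_congr rfl fun k _ => ?_
    unfold od
    split_ifs with h2
    · rw [← sum_div, ← mul_sum]; ring
    · simp
  have h2 : |(∑ n ∈ range N, TT K (z n)) / N| ≤ ∑ k ∈ (Icc 1 K).filter (fun k => k % 2 = 1), d k / k := by
    rw [h1]
    refine (abs_sum_le_sum_abs _ _).trans (sum_le_sum fun k hk => ?_)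
    have hk0 : (0 : ℝ) < k := by
      exact_mod_cast (mem_Icc.1 (mem_filter.1 hk).1).1
    rw [abs_div, abs_mul, abs_of_pos hk0]
    refine div_le_div_of_nonneg_right ?_ hk0.le
    calc |muR k| * |(∑ n ∈ range N, sq (k * z n)) / N| ≤ 1 * d k :=
          mul_le_mul (muR_abs k) (hd k hk) (abs_nonneg _) zero_le_one
      _ = d k := one_mul _
  have h3 : |(∑ n ∈ range N, TT K (z n)) / N - 4 / Real.pi * ((∑ n ∈ range N, Real.sin (2 * Real.pi * z n)) / N)| ≤
      E := by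
    have e1 : (∑ n ∈ range N, TT K (z n)) / N - 4 / Real.pi * ((∑ n ∈ range N, Real.sin (2 * Real.pi * z n)) / N) =
        (∑ n ∈ range N, (TT K (z n) - 4 / Real.pi * Real.sin (2 * Real.pi * z n))) / N := by
      rw [sum_sub_distrib, ← mul_sum]; ring
    rw [e1, abs_div, abs_of_pos hNr, div_le_iff₀ hNr]
    refine (abs_sum_le_sum_abs _ _).trans ?_
    refine (sum_le_sum fun n _ => h K hK (z n)).trans ?_
    rw [sum_const, card_range, nsmul_eq_mul, ← hE, mul_comm]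
  obtain ⟨S, hS⟩ : ∃ S : ℝ, S = (∑ n ∈ range N, Real.sin (2 * Real.pi * z n)) / N := ⟨_, rfl⟩
  obtain ⟨T, hT⟩ : ∃ T : ℝ, T = (∑ n ∈ range N, TT K (z n)) / N := ⟨_, rfl⟩
  rw [← hS, ← hT] at h3
  rw [← hT] at h2
  rw [← hS]
  have h4 : |4 / Real.pi * S| ≤ E + ∑ k ∈ (Icc 1 K).filter (fun k => k % 2 = 1), d k / k := by
    have e2 : 4 / Real.pi * S = T - (T - 4 / Real.pi * S) := by ring
    rw [e2]
    have := abs_sub T (T - 4 / Real.pi * S)
    linarith
  rw [abs_mul, abs_of_pos (by positivity : (0 : ℝ) < 4 / Real.pi)] at h4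
  have h5 : 1 ≤ 4 / Real.pi := by
    rw [le_div_iff₀ hpi, one_mul]
    exact Real.pi_le_four
  have h6 : |S| ≤ 4 / Real.pi * |S| := le_mul_of_one_le_left (abs_nonneg _) h5
  linarith

/-- **Cosines against their signs** -/
theorem cos_mid (A : ℕ) : ∃ C : ℝ, 0 < C ∧ ∀ K : ℕ, 2 ≤ K → ∀ N : ℕ, 1 ≤ N → ∀ y : ℕ → ℝ,
    |(∑ n ∈ range N, Real.cos (2 * Real.pi * y n)) / N| ≤ C / Real.log K ^ A +
      ∑ k ∈ (Icc 1 K).filter (fun k => k % 2 = 1), |1 - 2 * ((mid (fun n => k * y n) N : ℝ) / N)| / k := by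
  obtain ⟨C, hC, h⟩ := avg_dav A
  refine ⟨C, hC, fun K hK N hN y => ?_⟩
  have hNr : (0 : ℝ) < N := by exact_mod_cast hN
  have h1 := h K hK N hN (fun n => y n + 1 / 4)
    (fun k => |1 - 2 * ((mid (fun n => k * y n) N : ℝ) / N)|) (by
      intro k hk
      obtain ⟨s, hs, h2⟩ := sq_odd k (mem_filter.1 hk).2
      have h3 : ∑ n ∈ range N, sq (k * (y n + 1 / 4)) = s * (N - 2 * mid (fun n => k * y n) N) := by
        rw [← sum_mid (fun n => k * y n) N, mul_sum]
        exact sum_congr rfl fun n _ => h2 _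
      rw [h3, mul_div_assoc, abs_mul, hs, one_mul]
      apply le_of_eq
      congr 1
      field_simp)
  have h2 : ∀ n, Real.sin (2 * Real.pi * (y n + 1 / 4)) = Real.cos (2 * Real.pi * y n) := by
    intro n
    rw [← Real.sin_add_pi_div_two]
    congr 1; ring
  simp_rw [h2] at h1
  exact h1

/-- **Sines against their signs** -/
theorem sin_low (A : ℕ) : ∃ C : ℝ, 0 < C ∧ ∀ K : ℕ, 2 ≤ K → ∀ N : ℕ, 1 ≤ N → ∀ y : ℕ → ℝ,
    |(∑ n ∈ range N, Real.sin (2 * Real.pi * y n)) / N| ≤ C / Real.log K ^ A +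
      ∑ k ∈ (Icc 1 K).filter (fun k => k % 2 = 1), |1 - 2 * ((low (fun n => k * y n) N : ℝ) / N)| / k := by
  obtain ⟨C, hC, h⟩ := avg_dav A
  refine ⟨C, hC, fun K hK N hN y => ?_⟩
  have hNr : (0 : ℝ) < N := by exact_mod_cast hN
  exact h K hK N hN y (fun k => |1 - 2 * ((low (fun n => k * y n) N : ℝ) / N)|) (by
      intro k _
      rw [sum_low (fun n => k * y n) N, abs_sub_comm]
      apply le_of_eq
      congr 1
      field_simp)

/-- limits: all odd multiples balanced implies mean zero -/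
lemma cos_lim (y : ℕ → ℝ) (h : ∀ k : ℕ, k % 2 = 1 →
      Tendsto (fun N : ℕ => (mid (fun n => k * y n) N : ℝ) / N) atTop (𝓝 (1 / 2))) :
    Tendsto (fun N : ℕ => (∑ n ∈ range N, Real.cos (2 * Real.pi * y n)) / N) atTop (𝓝 0) := by
  obtain ⟨C, hC, hc⟩ := cos_mid 1
  rw [Metric.tendsto_atTop]
  intro ε hε
  obtain ⟨K, -, hK2, hK⟩ := log_inv_small C (show 0 < ε / 2 by positivity) 0
  have h1 : Tendsto (fun N : ℕ => ∑ k ∈ (Icc 1 K).filter (fun k => k % 2 = 1),
      |1 - 2 * ((mid (fun n => k * y n) N : ℝ) / N)| / k) atTop (𝓝 0) := by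
    have h2 : Tendsto (fun N : ℕ => ∑ k ∈ (Icc 1 K).filter (fun k => k % 2 = 1),
      |1 - 2 * ((mid (fun n => k * y n) N : ℝ) / N)| / k) atTop
        (𝓝 (∑ k ∈ (Icc 1 K).filter (fun k => k % 2 = 1), |(1 : ℝ) - 2 * (1 / 2)| / k)) := by
      refine tendsto_finsetSum _ fun k hk => ?_
      exact (((h k (mem_filter.1 hk).2).const_mul 2).const_sub 1).abs.div_const _
    norm_num at h2
    exact h2
  obtain ⟨N0, hN0⟩ := eventually_atTop.1 (h1.eventually (gt_mem_nhds (show 0 < ε / 2 by positivity)))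
  refine ⟨max N0 1, fun N hN => ?_⟩
  rw [Real.dist_eq, sub_zero]
  have h2 := hc K hK2 N ((le_max_right _ _).trans hN) y
  have h3 := hN0 N ((le_max_left _ _).trans hN)
  linarith

lemma sin_lim (y : ℕ → ℝ) (h : ∀ k : ℕ, k % 2 = 1 →
      Tendsto (fun N : ℕ => (low (fun n => k * y n) N : ℝ) / N) atTop (𝓝 (1 / 2))) :
    Tendsto (fun N : ℕ => (∑ n ∈ range N, Real.sin (2 * Real.pi * y n)) / N) atTop (𝓝 0) := by
  obtain ⟨C, hC, hc⟩ := sin_low 1
  rw [Metric.tendsto_atTop]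
  intro ε hε
  obtain ⟨K, -, hK2, hK⟩ := log_inv_small C (show 0 < ε / 2 by positivity) 0
  have h1 : Tendsto (fun N : ℕ => ∑ k ∈ (Icc 1 K).filter (fun k => k % 2 = 1),
      |1 - 2 * ((low (fun n => k * y n) N : ℝ) / N)| / k) atTop (𝓝 0) := by
    have h2 : Tendsto (fun N : ℕ => ∑ k ∈ (Icc 1 K).filter (fun k => k % 2 = 1),
      |1 - 2 * ((low (fun n => k * y n) N : ℝ) / N)| / k) atTop
        (𝓝 (∑ k ∈ (Icc 1 K).filter (fun k => k % 2 = 1), |(1 : ℝ) - 2 * (1 / 2)| / k)) := by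
      refine tendsto_finsetSum _ fun k hk => ?_
      exact (((h k (mem_filter.1 hk).2).const_mul 2).const_sub 1).abs.div_const _
    norm_num at h2
    exact h2
  obtain ⟨N0, hN0⟩ := eventually_atTop.1 (h1.eventually (gt_mem_nhds (show 0 < ε / 2 by positivity)))
  refine ⟨max N0 1, fun N hN => ?_⟩
  rw [Real.dist_eq, sub_zero]
  have h2 := hc K hK2 N ((le_max_right _ _).trans hN) y
  have h3 := hN0 N ((le_max_left _ _).trans hN)
  linarith

end Q190.OB
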