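import Pool.Agent.Q190.OB.G

/-! # Normality from the signs of the cosines at arbitrarily sparse sets of frequencies -/

set_option autoImplicit false

namespace Q190.OB

open Finset Filter Topology
open Q241.SW (avg e ex cm Ample Normal digit)

/-- the number of `n < N` with `{m b ^ n x} ∈ [1 / 4, 3 / 4)` -/
noncomputable def tst (b : ℕ) (x : ℝ) (m : ℕ) (N : ℕ) : ℕ := mid (fun n => (m : ℝ) * ((b : ℝ) ^ n * x)) N

lemma weyl_normal (b : ℕ) (hb : 2 ≤ b) (x : ℝ) (h : Normal b x) (m0 : ℕ) (hm0 : 1 ≤ m0) :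
    UD (fun n => (m0 : ℝ) * ((b : ℝ) ^ n * x)) := by
  refine ud_of _ fun m hm => ?_
  have h1 := Q241.SW.exp_of_normal b hb x h (m * m0) (mul_ne_zero hm (by omega))
  refine h1.congr fun N => ?_
  congr 1
  funext n
  unfold ex
  congr 1
  push_cast
  ring

lemma tst_of_normal (b : ℕ) (hb : 2 ≤ b) (x : ℝ) (h : Normal b x) (m : ℕ) (hm : 1 ≤ m) :
    Tendsto (fun N : ℕ => (tst b x m N : ℝ) / N) atTop (𝓝 (1 / 2)) := by
  have h1 := weyl_normal b hb x h m hm (1 / 4) (3 / 4) (by norm_num) (by norm_num) (by norm_num)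
  have e1 : (3 / 4 : ℝ) - 1 / 4 = 1 / 2 := by norm_num
  rw [e1] at h1
  exact h1

theorem universal (ω : ℕ → ℕ) (hω : Tendsto ω atTop atTop) :
    ∃ M : Set ℕ, (∀ m ∈ M, 1 ≤ m) ∧ (∀ X : ℕ, (M ∩ Set.Iic X).ncard ≤ ω X) ∧
      ∀ b : ℕ, 2 ≤ b → ∀ x : ℝ,
        (Normal b x ↔ ∀ m ∈ M, Tendsto (fun N : ℕ => (tst b x m N : ℝ) / N) atTop (𝓝 (1 / 2))) := by
  classical
  obtain ⟨C, hC, hcos⟩ := cos_mid 1
  have hκ0 : ∀ r : ℕ, ∃ K : ℕ, 2 ≤ K ∧ C / Real.log K ^ 1 < 1 / ((r : ℝ) + 1) := by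
    intro r
    obtain ⟨K, -, h2, h3⟩ := log_inv_small C (show (0 : ℝ) < 1 / ((r : ℝ) + 1) by positivity) 0
    exact ⟨K, h2, h3⟩
  choose κ0 hκ1 hκ2 using hκ0
  obtain ⟨κ, hκ⟩ : ∃ κ : ℕ → ℕ, κ = fun r => ∑ s ∈ range (r + 1), κ0 s := ⟨_, rfl⟩
  have hκmono : Monotone κ := by
    intro r s hrs
    rw [hκ]
    exact sum_le_sum_of_subset (range_mono (by omega))
  have hκge : ∀ r, κ0 r ≤ κ r := by
    intro r
    rw [hκ]
    exact single_le_sum (f := κ0) (fun _ _ => Nat.zero_le _) (mem_range.2 (by omega))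
  have hκtwo : ∀ r, 2 ≤ κ r := fun r => (hκ1 r).trans (hκge r)
  have hκsm : ∀ r, C / Real.log (κ r) ^ 1 < 1 / ((r : ℝ) + 1) := by
    intro r
    refine lt_of_le_of_lt ?_ (hκ2 r)
    have h1 : (2 : ℝ) ≤ κ0 r := by exact_mod_cast hκ1 r
    have h2 : (κ0 r : ℝ) ≤ κ r := by exact_mod_cast hκge r
    have h3 : 0 < Real.log (κ0 r) := Real.log_pos (by linarith)
    have h4 : Real.log (κ0 r) ≤ Real.log (κ r) := Real.log_le_log (by linarith) h2
    gcongr
  have hL : ∀ r : ℕ, ∃ L : ℕ, 1 ≤ L ∧ ∀ X, L ≤ X → r ^ 4 * κ r ≤ ω X := by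
    intro r
    obtain ⟨L, hL⟩ := eventually_atTop.1 (hω.eventually_ge_atTop (r ^ 4 * κ r))
    exact ⟨max L 1, le_max_right _ _, fun X hX => hL X ((le_max_left _ _).trans hX)⟩
  choose L hL1 hL2 using hL
  obtain ⟨M, hM⟩ : ∃ M : Set ℕ, M = {y | ∃ r m b t k : ℕ, 1 ≤ m ∧ m ≤ r ∧ 2 ≤ b ∧ b ≤ r ∧ 1 ≤ t ∧
      t ≤ r ∧ 1 ≤ k ∧ k ≤ κ r ∧ y = k * (m * (b ^ (t * L r) - 1))} := ⟨_, rfl⟩
  have hbig0 : ∀ r m b t : ℕ, 1 ≤ m → 2 ≤ b → 1 ≤ t → L r ≤ m * (b ^ (t * L r) - 1) := by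
    intro r m b t hm hb ht
    have h1 : 2 ^ (L r) ≤ b ^ (t * L r) :=
      (Nat.pow_le_pow_left hb _).trans (Nat.pow_le_pow_right (by omega) (Nat.le_mul_of_pos_left _ ht))
    have h2 : L r < 2 ^ (L r) := Nat.lt_two_pow_self
    have h3 : b ^ (t * L r) - 1 ≤ m * (b ^ (t * L r) - 1) := Nat.le_mul_of_pos_left _ hm
    omega
  have hbig : ∀ r m b t k : ℕ, 1 ≤ m → 2 ≤ b → 1 ≤ t → 1 ≤ k → L r ≤ k * (m * (b ^ (t * L r) - 1)) := by
    intro r m b t k hm hb ht hk
    exact (hbig0 r m b t hm hb ht).trans (Nat.le_mul_of_pos_left _ hk)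
  refine ⟨M, ?_, ?_, ?_⟩
  · intro y hy
    rw [hM] at hy
    obtain ⟨r, m, b, t, k, h1, -, h3, -, h5, -, h7, -, rfl⟩ := hy
    exact (hL1 r).trans (hbig r m b t k h1 h3 h5 h7)
  · intro X
    obtain ⟨R, hR⟩ : ∃ R : ℕ, R = Nat.findGreatest (fun r => r ^ 4 * κ r ≤ ω X) (ω X) := ⟨_, rfl⟩
    have hR1 : R ^ 4 * κ R ≤ ω X := by
      rw [hR]
      exact Nat.findGreatest_spec (P := fun r => r ^ 4 * κ r ≤ ω X) (Nat.zero_le _) (by simp)
    have hR2 : ∀ r, r ^ 4 * κ r ≤ ω X → r ≤ R := by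
      intro r hr
      rw [hR]
      refine Nat.le_findGreatest ?_ hr
      refine le_trans ?_ hr
      exact (Nat.le_self_pow (by norm_num) r).trans (Nat.le_mul_of_pos_right _ (by have := hκtwo r; omega))
    have hsub : M ∩ Set.Iic X ⊆ (((((Icc 1 R ×ˢ Icc 1 R) ×ˢ (Icc 1 R ×ˢ Icc 1 R)) ×ˢ Icc 1 (κ R)).image
        fun p : ((ℕ × ℕ) × (ℕ × ℕ)) × ℕ => p.2 * (p.1.1.2 * (p.1.2.1 ^ (p.1.2.2 * L p.1.1.1) - 1)) :
          Finset ℕ) : Set ℕ) := by
      rintro y ⟨hy, hyX⟩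
      rw [hM] at hy
      obtain ⟨r, m, b, t, k, h1, h2, h3, h4, h5, h6, h8, h9, rfl⟩ := hy
      rw [Set.mem_Iic] at hyX
      have h7 : r ≤ R := hR2 r (hL2 r X ((hbig r m b t k h1 h3 h5 h8).trans hyX))
      have h10 := hκmono h7
      rw [Finset.mem_coe, Finset.mem_image]
      refine ⟨(((r, m), (b, t)), k), ?_, rfl⟩
      simp only [mem_product, mem_Icc]
      omega
    refine (Set.ncard_le_ncard hsub (Finset.finite_toSet _)).trans ?_
    rw [Set.ncard_coe_finset]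
    refine card_image_le.trans ?_
    simp only [card_product, Nat.card_Icc, Nat.add_sub_cancel]
    refine le_trans (le_of_eq ?_) hR1
    ring
  · intro b hb x
    constructor
    · intro h y hy
      have hy1 : 1 ≤ y := by
        rw [hM] at hy
        obtain ⟨r, m, b', t, k, h1, -, h3, -, h5, -, h7, -, rfl⟩ := hy
        exact (hL1 r).trans (hbig r m b' t k h1 h3 h5 h7)
      exact tst_of_normal b hb x h y hy1
    · intro h
      rw [Q241.SW.critA b hb x]
      intro m hm _ ε hε K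
      obtain ⟨r1, hr1⟩ := exists_nat_gt (2 / ε)
      obtain ⟨r, hr⟩ : ∃ r : ℕ, r = max (max (max K b) m) r1 := ⟨_, rfl⟩
      have hrK : K ≤ r := by rw [hr]; exact (le_max_left _ _).trans ((le_max_left _ _).trans (le_max_left _ _))
      have hrb : b ≤ r := by rw [hr]; exact (le_max_right _ _).trans ((le_max_left _ _).trans (le_max_left _ _))
      have hrm : m ≤ r := by rw [hr]; exact (le_max_right _ _).trans (le_max_left _ _)
      have hrr : r1 ≤ r := by rw [hr]; exact le_max_right _ _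
      have hLr := hL1 r
      have hsmall : C / Real.log (κ r) ^ 1 < ε / 2 := by
        refine (hκsm r).trans ?_
        have h1 : (r1 : ℝ) ≤ r := by exact_mod_cast hrr
        rw [div_lt_iff₀ (by positivity)]
        rw [div_lt_iff₀ hε] at hr1
        nlinarith
      refine ⟨(range K).image (fun i => i * L r), ?_, ?_⟩
      · rw [card_image_of_injective _ fun i j hij => Nat.eq_of_mul_eq_mul_right hLr hij, card_range]
      · intro s hs s' hs' hlt
        rw [mem_image] at hs hs'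
        obtain ⟨i, hi, rfl⟩ := hs
        obtain ⟨j, hj, rfl⟩ := hs'
        rw [mem_range] at hi hj
        have hji : j < i := Nat.lt_of_mul_lt_mul_right hlt
        have e1 : i * L r - j * L r = (i - j) * L r := (Nat.sub_mul _ _ _).symm
        rw [e1]
        obtain ⟨f, hf⟩ : ∃ f : ℕ, f = m * (b ^ ((i - j) * L r) - 1) := ⟨_, rfl⟩
        have hmem : ∀ k : ℕ, 1 ≤ k → k ≤ κ r → k * f ∈ M := by
          intro k hk1 hk2
          rw [hM, hf]
          exact ⟨r, m, b, i - j, k, hm, hrm, hb, hrb, by omega, by omega, hk1, hk2, rfl⟩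
        -- the tests at the multiples of `f`
        have h1 : Tendsto (fun N : ℕ => ∑ k ∈ (Icc 1 (κ r)).filter (fun k => k % 2 = 1),
            |1 - 2 * ((mid (fun n => (k : ℝ) * ((f : ℝ) * ((b : ℝ) ^ n * x))) N : ℝ) / N)| / k) atTop (𝓝 0) := by
          have h2 : Tendsto (fun N : ℕ => ∑ k ∈ (Icc 1 (κ r)).filter (fun k => k % 2 = 1),
            |1 - 2 * ((mid (fun n => (k : ℝ) * ((f : ℝ) * ((b : ℝ) ^ n * x))) N : ℝ) / N)| / k) atTop
              (𝓝 (∑ k ∈ (Icc 1 (κ r)).filter (fun k => k % 2 = 1), |(1 : ℝ) - 2 * (1 / 2)| / k)) := by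
            refine tendsto_finsetSum _ fun k hk => ?_
            have hk' := mem_Icc.1 (mem_filter.1 hk).1
            have h3 := h _ (hmem k hk'.1 hk'.2)
            have h4 : (fun n : ℕ => (k : ℝ) * ((f : ℝ) * ((b : ℝ) ^ n * x))) =
                fun n : ℕ => ((k * f : ℕ) : ℝ) * ((b : ℝ) ^ n * x) := by
              funext n; push_cast; ring
            rw [h4]
            exact ((h3.const_mul 2).const_sub 1).abs.div_const _
          norm_num at h2
          exact h2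
        have h5 := (h1.eventually (gt_mem_nhds (show 0 < ε / 2 by positivity))).and (eventually_ge_atTop 1)
        have e2 : (m : ℤ) * ((b : ℤ) ^ ((i - j) * L r) - 1) = (f : ℤ) := by
          rw [hf]
          have : 1 ≤ b ^ ((i - j) * L r) := Nat.one_le_pow _ _ (by omega)
          push_cast [Nat.cast_sub this]
          ring
        rw [Set.mem_ofPred_eq, e2]
        filter_upwards [h5] with N hN
        have h6 := hcos (κ r) (hκtwo r) N hN.2 (fun n => (f : ℝ) * ((b : ℝ) ^ n * x))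
        have h7 : cm b x f N = (∑ n ∈ range N, Real.cos (2 * Real.pi * ((f : ℝ) * ((b : ℝ) ^ n * x)))) / N := by
          unfold cm
          congr 1
          refine sum_congr rfl fun n _ => ?_
          congr 1
          push_cast
          ring
        rw [h7]
        have h8 := le_abs_self ((∑ n ∈ range N, Real.cos (2 * Real.pi * ((f : ℝ) * ((b : ℝ) ^ n * x)))) / N)
        linarith [hN.1]

/-- **The one-bit criterion** -/
theorem one_bit (b : ℕ) (hb : 2 ≤ b) (x : ℝ) : Normal b x ↔ ∀ m : ℕ, 1 ≤ m →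
    Tendsto (fun N : ℕ => (tst b x m N : ℝ) / N) atTop (𝓝 (1 / 2)) := by
  constructor
  · intro h m hm
    exact tst_of_normal b hb x h m hm
  · intro h
    obtain ⟨M, h1, -, h2⟩ := universal id tendsto_id
    exact (h2 b hb x).2 fun m hm => h m (h1 m hm)

/-- for irrational numbers: the signs of the cosines -/
lemma cos_pos_iff {t : ℝ} (ht : Irrational t) :
    0 < Real.cos (2 * Real.pi * t) ↔ ¬ (1 / 4 ≤ Int.fract t ∧ Int.fract t < 3 / 4) := by
  obtain ⟨f, hf⟩ : ∃ f : ℝ, f = Int.fract t := ⟨_, rfl⟩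
  have h0 : 0 ≤ f := by rw [hf]; exact Int.fract_nonneg _
  have h1 : f < 1 := by rw [hf]; exact Int.fract_lt_one _
  have h2 : t = f + (⌊t⌋ : ℝ) := by rw [hf, Int.fract_add_floor]
  rw [← hf]
  have hpi := Real.pi_pos
  have h3 : Real.cos (2 * Real.pi * t) = Real.cos (2 * Real.pi * f) := by
    have : 2 * Real.pi * t = 2 * Real.pi * f + (⌊t⌋ : ℝ) * (2 * Real.pi) := by
      have h4 : 2 * Real.pi * t = 2 * Real.pi * (f + (⌊t⌋ : ℝ)) := by rw [← h2]
      rw [h4]; ring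
    rw [this, Real.cos_add_int_mul_two_pi]
  rw [h3]
  have hrat : ∀ q : ℚ, f ≠ q := by
    intro q h
    apply ht
    refine ⟨q + ⌊t⌋, ?_⟩
    push_cast
    rw [← h]
    exact h2.symm
  have hne : f ≠ 1 / 4 := by
    intro h
    exact hrat (1 / 4) (by rw [h]; norm_num)
  have hne' : f ≠ 3 / 4 := by
    intro h
    exact hrat (3 / 4) (by rw [h]; norm_num)
  rcases lt_or_gt_of_ne hne with h4 | h4
  · have h5 : 0 < Real.cos (2 * Real.pi * f) :=
      Real.cos_pos_of_mem_Ioo ⟨by nlinarith, by nlinarith⟩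
    exact ⟨fun _ h => by linarith [h.1], fun _ => h5⟩
  · rcases lt_or_gt_of_ne hne' with h5 | h5
    · have h6 : Real.cos (2 * Real.pi * f) < 0 := by
        apply Real.cos_neg_of_pi_div_two_lt_of_lt
        · nlinarith
        · nlinarith
      exact ⟨fun h => absurd h (not_lt.2 h6.le), fun h => absurd ⟨h4.le, h5⟩ h⟩
    · have h6 : 0 < Real.cos (2 * Real.pi * f) := by
        have : Real.cos (2 * Real.pi * f) = Real.cos (2 * Real.pi * f - 2 * Real.pi) :=
          (Real.cos_sub_two_pi _).symm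
        rw [this]
        exact Real.cos_pos_of_mem_Ioo ⟨by nlinarith, by nlinarith⟩
      exact ⟨fun _ h => by linarith [h.2], fun _ => h6⟩

/-- the number of `n < N` with `cos (2 π m b ^ n x) > 0` -/
noncomputable def pos (b : ℕ) (x : ℝ) (m : ℕ) (N : ℕ) : ℕ := by
  classical
  exact ((range N).filter fun n => 0 < Real.cos (2 * Real.pi * ((m : ℝ) * ((b : ℝ) ^ n * x)))).card

lemma pos_add (b : ℕ) (hb : 1 ≤ b) (x : ℝ) (hx : Irrational x) (m : ℕ) (hm : 1 ≤ m) (N : ℕ) :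
    tst b x m N + pos b x m N = N := by
  classical
  unfold tst pos mid
  have h1 : (range N).filter (fun n => 0 < Real.cos (2 * Real.pi * ((m : ℝ) * ((b : ℝ) ^ n * x)))) =
      (range N).filter (fun n => ¬ (1 / 4 ≤ Int.fract ((m : ℝ) * ((b : ℝ) ^ n * x)) ∧
        Int.fract ((m : ℝ) * ((b : ℝ) ^ n * x)) < 3 / 4)) := by
    refine filter_congr fun n _ => ?_
    apply cos_pos_iff
    have e1 : (m : ℝ) * ((b : ℝ) ^ n * x) = ((m * b ^ n : ℕ) : ℝ) * x := by push_cast; ring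
    rw [e1]
    exact hx.natCast_mul (Nat.mul_pos (by omega) (Nat.pow_pos (by omega))).ne'
  have h2 := card_filter_add_card_filter_not (s := range N) (fun n =>
    1 / 4 ≤ Int.fract ((m : ℝ) * ((b : ℝ) ^ n * x)) ∧ Int.fract ((m : ℝ) * ((b : ℝ) ^ n * x)) < 3 / 4)
  rw [card_range] at h2
  convert h2 using 2
  convert congrArg card h1 using 1

theorem one_bit_cos (b : ℕ) (hb : 2 ≤ b) (x : ℝ) (hx : Irrational x) : Normal b x ↔ ∀ m : ℕ, 1 ≤ m →
    Tendsto (fun N : ℕ => (pos b x m N : ℝ) / N) atTop (𝓝 (1 / 2)) := by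
  rw [one_bit b hb x]
  refine forall_congr' fun m => forall_congr' fun hm => ?_
  have h1 : ∀ᶠ N : ℕ in atTop, (pos b x m N : ℝ) / N = 1 - (tst b x m N : ℝ) / N := by
    filter_upwards [eventually_ge_atTop 1] with N hN
    have hNr : (N : ℝ) ≠ 0 := by exact_mod_cast (by omega : N ≠ 0)
    have h2 : (tst b x m N : ℝ) + pos b x m N = N := by
      exact_mod_cast pos_add b (by omega) x hx m hm N
    field_simp
    linarith
  constructor
  · intro h
    have h3 := h.const_sub 1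
    have e1 : (1 : ℝ) - 1 / 2 = 1 / 2 := by norm_num
    rw [e1] at h3
    exact h3.congr' (h1.mono fun N hN => hN.symm)
  · intro h
    have h3 := h.const_sub 1
    have e1 : (1 : ℝ) - 1 / 2 = 1 / 2 := by norm_num
    rw [e1] at h3
    refine h3.congr' (h1.mono fun N hN => ?_)
    rw [hN]; ring

/-- blocks of two digits -/
lemma two_digits (b : ℕ) (hb : 0 < b) (x : ℝ) (n : ℕ) :
    (b : ℤ) * digit b x n + digit b x (n + 1) = ⌊((b : ℝ) ^ 2) * Int.fract ((b : ℝ) ^ n * x)⌋ := by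
  have h1 := Q241.SW.V_succ b hb x 1 n
  have h2 := Q241.SW.V_succ b hb x 0 n
  have h0 : Q241.SW.V b x 0 n = 0 := by
    unfold Q241.SW.V
    rw [pow_zero, Int.emod_one]
  rw [h0, mul_zero, zero_add, add_zero] at h2
  rw [zero_add] at h2
  rw [h2] at h1
  rw [← h1]
  unfold Q241.SW.V
  have hbr : (0 : ℝ) < b := by exact_mod_cast hb
  obtain ⟨z, hz⟩ : ∃ z : ℝ, z = (b : ℝ) ^ n * x := ⟨_, rfl⟩
  have e1 : x * (b : ℝ) ^ (n + (1 + 1)) = (b : ℝ) ^ 2 * Int.fract z + (((b : ℤ) ^ 2 * ⌊z⌋ : ℤ) : ℝ) := by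
    have := Int.fract_add_floor z
    push_cast
    have e2 : x * (b : ℝ) ^ (n + (1 + 1)) = (b : ℝ) ^ 2 * z := by rw [hz, pow_add]; ring
    rw [e2]
    nth_rewrite 1 [← this]
    ring
  rw [e1, Int.floor_add_intCast, ← hz]
  have e3 : (b : ℤ) ^ (1 + 1) = (b : ℤ) ^ 2 := rfl
  rw [e3, Int.add_mul_emod_self_left]
  refine Int.emod_eq_of_lt (Int.floor_nonneg.2 (mul_nonneg (by positivity) (Int.fract_nonneg _))) ?_
  rw [Int.floor_lt]
  push_cast
  have := Int.fract_lt_one z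
  have h3 : (0 : ℝ) < (b : ℝ) ^ 2 := by positivity
  nlinarith

lemma ten_iff (x : ℝ) (n : ℕ) : (25 ≤ 10 * digit 10 x n + digit 10 x (n + 1) ∧
    10 * digit 10 x n + digit 10 x (n + 1) < 75) ↔
    (1 / 4 ≤ Int.fract (((10 : ℕ) : ℝ) ^ n * x) ∧ Int.fract (((10 : ℕ) : ℝ) ^ n * x) < 3 / 4) := by
  have h1 := two_digits 10 (by norm_num) x n
  have h2 : (((10 : ℕ) : ℤ)) = 10 := by norm_num
  rw [h2] at h1
  rw [h1, Int.le_floor, Int.floor_lt]
  push_cast
  constructor <;> rintro ⟨q1, q2⟩ <;> constructor <;> linarith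

lemma two_iff (x : ℝ) (n : ℕ) : digit 2 x n ≠ digit 2 x (n + 1) ↔
    (1 / 4 ≤ Int.fract (((2 : ℕ) : ℝ) ^ n * x) ∧ Int.fract (((2 : ℕ) : ℝ) ^ n * x) < 3 / 4) := by
  have h1 := two_digits 2 (by norm_num) x n
  have d1 := Q241.SW.digit_range 2 (by norm_num) x n
  have d2 := Q241.SW.digit_range 2 (by norm_num) x (n + 1)
  have h2 : (((2 : ℕ) : ℤ)) = 2 := by norm_num
  rw [h2] at h1 d1 d2
  have h3 : digit 2 x n ≠ digit 2 x (n + 1) ↔ (1 ≤ 2 * digit 2 x n + digit 2 x (n + 1) ∧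
      2 * digit 2 x n + digit 2 x (n + 1) < 3) := by
    constructor
    · intro h; constructor <;> omega
    · rintro ⟨g1, g2⟩ h; omega
  rw [h3, h1, Int.le_floor, Int.floor_lt]
  push_cast
  constructor <;> rintro ⟨q1, q2⟩ <;> constructor <;> linarith

end Q190.OB
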