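import Pool.Agent.Q190.OB.F

/-! # The Thue–Morse number: all multiples are simply normal in base two -/

set_option autoImplicit false

namespace Q190.OB.TM

open Finset Filter Topology

/-- the Thue–Morse sequence -/
def tm (n : ℕ) : ℕ := (Nat.digits 2 n).sum % 2

lemma tm_even (n : ℕ) : tm (2 * n) = tm n := by
  rcases Nat.eq_zero_or_pos n with h | h
  · subst h; rfl
  · unfold tm
    rw [Nat.digits_def' (by norm_num) (by omega : 0 < 2 * n)]
    have h1 : 2 * n % 2 = 0 := by omega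
    have h2 : 2 * n / 2 = n := by omega
    rw [h1, h2, List.sum_cons, zero_add]

lemma tm_lt (n : ℕ) : tm n < 2 := Nat.mod_lt _ (by norm_num)

lemma tm_odd (n : ℕ) : tm (2 * n + 1) = 1 - tm n := by
  have h0 : tm (2 * n + 1) = (1 + (Nat.digits 2 n).sum) % 2 := by
    unfold tm
    rw [Nat.digits_def' (by norm_num) (by omega : 0 < 2 * n + 1)]
    have h1 : (2 * n + 1) % 2 = 1 := by omega
    have h2 : (2 * n + 1) / 2 = n := by omega
    rw [h1, h2, List.sum_cons]
  rw [h0]
  unfold tm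
  omega

lemma tm_block (k a s : ℕ) (hs : s < 2 ^ k) : tm (2 ^ k * a + s) = (tm a + tm s) % 2 := by
  induction k generalizing s with
  | zero =>
    have : s = 0 := by simpa using hs
    subst this
    simp only [pow_zero, one_mul, add_zero]
    have h1 := tm_lt a
    have h2 : tm 0 = 0 := rfl
    omega
  | succ k ih =>
    obtain ⟨c, hc⟩ : ∃ c, c = s / 2 := ⟨_, rfl⟩
    have hc1 : c < 2 ^ k := by rw [pow_succ] at hs; omega
    have h1 := ih c hc1
    have l1 := tm_lt c
    have l2 := tm_lt a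
    rcases Nat.mod_two_eq_zero_or_one s with h | h
    · have e1 : s = 2 * c := by omega
      have e2 : 2 ^ (k + 1) * a + s = 2 * (2 ^ k * a + c) := by rw [pow_succ, e1]; ring
      rw [e2, tm_even, h1, e1, tm_even]
    · have e1 : s = 2 * c + 1 := by omega
      have e2 : 2 ^ (k + 1) * a + s = 2 * (2 ^ k * a + c) + 1 := by rw [pow_succ, e1]; ring
      rw [e2, tm_odd, h1, e1, tm_odd]
      omega

lemma tm_flip (k q s : ℕ) (hs : s < 2 ^ k) :
    tm (2 ^ (k + 1) * q + s) + tm (2 ^ (k + 1) * q + 2 ^ k + s) = 1 := by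
  have e1 : 2 ^ (k + 1) * q + s = 2 ^ k * (2 * q) + s := by rw [pow_succ]; ring
  have e2 : 2 ^ (k + 1) * q + 2 ^ k + s = 2 ^ k * (2 * q + 1) + s := by rw [pow_succ]; ring
  rw [e1, e2, tm_block k _ s hs, tm_block k _ s hs, tm_even, tm_odd]
  have l1 := tm_lt q
  have l2 := tm_lt s
  omega

/-- no three equal consecutive values -/
lemma tm_three (n : ℕ) : ¬ (tm n = tm (n + 1) ∧ tm (n + 1) = tm (n + 2)) := by
  rintro ⟨h1, h2⟩
  rcases Nat.mod_two_eq_zero_or_one n with h | h
  · obtain ⟨c, hc⟩ : ∃ c, n = 2 * c := ⟨n / 2, by omega⟩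
    rw [hc, tm_even, tm_odd] at h1
    have := tm_lt c
    omega
  · obtain ⟨c, hc⟩ : ∃ c, n + 1 = 2 * c := ⟨(n + 1) / 2, by omega⟩
    have e : n + 2 = 2 * c + 1 := by omega
    rw [e, hc, tm_even, tm_odd] at h2
    have := tm_lt c
    omega

/-- no long run with a given period -/
lemma no_period (p : ℕ) (hp : 1 ≤ p) : ∃ P : ℕ, ∀ i : ℕ, ¬ ∀ s ≤ P, tm (i + s) = tm (i + p + s) := by
  induction p using Nat.strong_induction_on with
  | _ p ih =>
    rcases Nat.mod_two_eq_zero_or_one p with h | h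
    · obtain ⟨p', hp'⟩ : ∃ p', p = 2 * p' := ⟨p / 2, by omega⟩
      obtain ⟨P, hP⟩ := ih p' (by omega) (by omega)
      refine ⟨2 * P + 1, fun i hi => hP ((i + 1) / 2) fun s hs => ?_⟩
      have e1 : 2 * ((i + 1) / 2 + s) = i + (2 * ((i + 1) / 2) - i + 2 * s) := by omega
      have e2 : 2 * ((i + 1) / 2 + p' + s) = i + p + (2 * ((i + 1) / 2) - i + 2 * s) := by omega
      rw [← tm_even ((i + 1) / 2 + s), ← tm_even ((i + 1) / 2 + p' + s), e1, e2]
      exact hi _ (by omega)
    · obtain ⟨w, hw⟩ : ∃ w, p = 2 * w + 1 := ⟨p / 2, by omega⟩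
      refine ⟨4, fun i hi => ?_⟩
      obtain ⟨v, hv⟩ : ∃ v, v = (i + 1) / 2 := ⟨_, rfl⟩
      have key : ∀ c : ℕ, c ≤ 1 → tm (v + c + w) = tm (v + c + w + 1) := by
        intro c hc
        have g1 := hi (2 * (v + c) - i) (by omega)
        have g2 := hi (2 * (v + c) + 1 - i) (by omega)
        have e1 : i + (2 * (v + c) - i) = 2 * (v + c) := by omega
        have e2 : i + p + (2 * (v + c) - i) = 2 * (v + c + w) + 1 := by omega
        have e3 : i + (2 * (v + c) + 1 - i) = 2 * (v + c) + 1 := by omega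
        have e4 : i + p + (2 * (v + c) + 1 - i) = 2 * (v + c + w + 1) := by omega
        rw [e1, e2, tm_even, tm_odd] at g1
        rw [e3, e4, tm_even, tm_odd] at g2
        have l1 := tm_lt (v + c)
        have l2 := tm_lt (v + c + w)
        have l3 := tm_lt (v + c + w + 1)
        omega
      have k0 := key 0 (by omega)
      have k1 := key 1 le_rfl
      rw [add_zero] at k0
      have e5 : v + 1 + w = v + w + 1 := by omega
      rw [e5] at k1
      exact tm_three (v + w) ⟨k0, k1⟩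

/-- the tails of the binary expansion -/
noncomputable def R (n : ℕ) : ℝ := ∑' i : ℕ, (tm (n + i) : ℝ) / 2 ^ (i + 1)

lemma term_le (n i : ℕ) : (tm (n + i) : ℝ) / 2 ^ (i + 1) ≤ (1 / 2) ^ (i + 1) := by
  have h : (tm (n + i) : ℝ) ≤ 1 := by
    have := tm_lt (n + i)
    exact_mod_cast (by omega : tm (n + i) ≤ 1)
  rw [one_div, inv_pow, ← one_div]
  exact div_le_div_of_nonneg_right h (by positivity)

lemma half_sum : HasSum (fun i : ℕ => ((1 : ℝ) / 2) ^ (i + 1)) 1 := by
  have h := hasSum_geometric_two' (1 : ℝ)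
  have e : (fun n : ℕ => (1 : ℝ) / 2 / 2 ^ n) = fun i => ((1 : ℝ) / 2) ^ (i + 1) := by
    funext i
    rw [pow_succ, one_div, inv_pow]
    field_simp
  rwa [e] at h

lemma R_summable (n : ℕ) : Summable fun i : ℕ => (tm (n + i) : ℝ) / 2 ^ (i + 1) :=
  Summable.of_nonneg_of_le (fun i => by positivity) (fun i => term_le n i) half_sum.summable

lemma R_nonneg (n : ℕ) : 0 ≤ R n := tsum_nonneg fun i => by positivity

lemma R_le (n : ℕ) : R n ≤ 1 := by
  unfold R
  have := (R_summable n).tsum_le_tsum (fun i => term_le n i) half_sum.summable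
  rwa [half_sum.tsum_eq] at this

lemma R_succ (n : ℕ) : R n = (tm n : ℝ) / 2 + R (n + 1) / 2 := by
  unfold R
  rw [(R_summable n).tsum_eq_zero_add]
  congr 1
  · simp
  · rw [← tsum_div_const]
    refine tsum_congr fun i => ?_
    have : n + (i + 1) = n + 1 + i := by ring
    rw [this, pow_succ, div_div]

lemma R_three (n : ℕ) : R n = (tm n : ℝ) / 2 + (tm (n + 1) : ℝ) / 4 + (tm (n + 2) : ℝ) / 8 + R (n + 3) / 8 := by
  have h1 := R_succ n
  have h2 := R_succ (n + 1)
  have h3 := R_succ (n + 2)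
  have e1 : n + 1 + 1 = n + 2 := rfl
  have e2 : n + 2 + 1 = n + 3 := rfl
  rw [e1] at h2
  rw [e2] at h3
  linarith

lemma R_bounds (n : ℕ) : 1 / 8 ≤ R n ∧ R n ≤ 7 / 8 := by
  have h0 := R_three n
  have h1 := R_nonneg (n + 3)
  have h2 := R_le (n + 3)
  have h3 := tm_three n
  have l0 := tm_lt n
  have l1 := tm_lt (n + 1)
  have l2 := tm_lt (n + 2)
  have c0 : tm n = 0 ∨ tm n = 1 := by omega
  have c1 : tm (n + 1) = 0 ∨ tm (n + 1) = 1 := by omega
  have c2 : tm (n + 2) = 0 ∨ tm (n + 2) = 1 := by omega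
  rcases c0 with c0 | c0 <;> rcases c1 with c1 | c1 <;> rcases c2 with c2 | c2 <;>
    rw [c0, c1, c2] at h0 h3 <;> simp at h3 <;> norm_num at h0 <;> constructor <;> linarith

/-- close tails have the same digits -/
lemma close_eq (P : ℕ) : ∀ i j : ℕ, |R i - R j| < 1 / (8 * 2 ^ P) → ∀ s ≤ P, tm (i + s) = tm (j + s) := by
  have first : ∀ i j : ℕ, |R i - R j| < 1 / 8 → tm i = tm j := by
    intro i j h
    by_contra hne
    have h1 := R_succ i
    have h2 := R_succ j
    have b1 := R_bounds (i + 1)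
    have b2 := R_bounds (j + 1)
    have l1 := tm_lt i
    have l2 := tm_lt j
    rw [abs_lt] at h
    have c1 : (tm i = 0 ∧ tm j = 1) ∨ (tm i = 1 ∧ tm j = 0) := by omega
    rcases c1 with ⟨c1, c2⟩ | ⟨c1, c2⟩
    · rw [c1] at h1; rw [c2] at h2
      push_cast at h1 h2
      linarith [h.1]
    · rw [c1] at h1; rw [c2] at h2
      push_cast at h1 h2
      linarith [h.2]
  induction P with
  | zero =>
    intro i j h s hs
    have : s = 0 := by omega
    subst this
    simp only [add_zero]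
    apply first
    simpa using h
  | succ P ih =>
    intro i j h s hs
    have hlt : (1 : ℝ) / (8 * 2 ^ (P + 1)) ≤ 1 / 8 := by
      apply one_div_le_one_div_of_le (by norm_num)
      have : (1 : ℝ) ≤ 2 ^ (P + 1) := one_le_pow₀ (by norm_num)
      linarith
    have h0 := first i j (h.trans_le hlt)
    rcases Nat.eq_zero_or_pos s with hs0 | hs0
    · subst hs0; simpa using h0
    · have h1 := R_succ i
      have h2 := R_succ j
      have h3 : R (i + 1) - R (j + 1) = 2 * (R i - R j) := by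
        rw [h1, h2, h0]; ring
      have h4 := ih (i + 1) (j + 1) (by
        rw [h3, abs_mul, abs_of_pos (by norm_num : (0 : ℝ) < 2)]
        have e : (1 : ℝ) / (8 * 2 ^ P) = 2 * (1 / (8 * 2 ^ (P + 1))) := by
          rw [pow_succ]; field_simp
        rw [e]
        linarith) (s - 1) (by omega)
      have e1 : i + 1 + (s - 1) = i + s := by omega
      have e2 : j + 1 + (s - 1) = j + s := by omega
      rwa [e1, e2] at h4

/-- the multiples of the tails stay away from the integers -/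
lemma away (M : ℕ) (hM : 1 ≤ M) : ∃ δ : ℝ, 0 < δ ∧ ∀ n : ℕ, ∀ z : ℤ, δ < |M * R n - z| := by
  have hper : ∃ P : ℕ, ∀ p : ℕ, 1 ≤ p → p ≤ M + 1 → ∀ i : ℕ, ¬ ∀ s ≤ P, tm (i + s) = tm (i + p + s) := by
    have h1 : ∀ p : ℕ, ∃ P : ℕ, 1 ≤ p → ∀ i : ℕ, ¬ ∀ s ≤ P, tm (i + s) = tm (i + p + s) := by
      intro p
      by_cases hp : 1 ≤ p
      · obtain ⟨P, hP⟩ := no_period p hp
        exact ⟨P, fun _ => hP⟩
      · exact ⟨0, fun h => absurd h hp⟩
    choose P hP using h1
    refine ⟨∑ p ∈ range (M + 2), P p, fun p hp1 hp2 i hi => hP p hp1 i fun s hs => hi s ?_⟩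
    exact hs.trans (single_le_sum (f := P) (fun _ _ => Nat.zero_le _) (mem_range.2 (by omega)))
  obtain ⟨P, hP⟩ := hper
  have hMr : (1 : ℝ) ≤ M := by exact_mod_cast hM
  refine ⟨1 / (8 * 2 ^ P * 2 ^ (M + 3)), by positivity, fun n z => ?_⟩
  by_contra hcon
  rw [not_lt] at hcon
  obtain ⟨δ, hδ⟩ : ∃ δ : ℝ, δ = 1 / (8 * 2 ^ P * 2 ^ (M + 3)) := ⟨_, rfl⟩
  rw [← hδ] at hcon
  have hδ0 : 0 < δ := by rw [hδ]; positivity
  have h2 : ∀ a : ℕ, ∃ y : ℤ, |M * R (n + a) - y| ≤ 2 ^ a * δ := by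
    intro a
    induction a with
    | zero => exact ⟨z, by simpa using hcon⟩
    | succ a ih =>
      obtain ⟨y, hy⟩ := ih
      refine ⟨2 * y - M * tm (n + a), ?_⟩
      have h3 := R_succ (n + a)
      have e1 : n + (a + 1) = n + a + 1 := rfl
      have h4 : (M : ℝ) * R (n + (a + 1)) - ((2 * y - M * tm (n + a) : ℤ) : ℝ) = 2 * (M * R (n + a) - y) := by
        rw [e1, h3]; push_cast; ring
      rw [h4, abs_mul, abs_of_pos (by norm_num : (0 : ℝ) < 2), pow_succ]
      linarith
  choose y hy using h2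
  have hsmall : ∀ a : ℕ, a ≤ M + 1 → (2 : ℝ) ^ a * δ ≤ 1 / (8 * 2 ^ P * 4) := by
    intro a ha
    have h3 : (2 : ℝ) ^ a ≤ 2 ^ (M + 1) := pow_le_pow_right₀ (by norm_num) ha
    calc (2 : ℝ) ^ a * δ ≤ 2 ^ (M + 1) * δ := by gcongr
      _ = 1 / (8 * 2 ^ P * 4) := by
        rw [hδ, pow_add 2 M 3, pow_add 2 M 1]; field_simp; norm_num
  have hP1 : (1 : ℝ) ≤ 2 ^ P := one_le_pow₀ (by norm_num)
  have hs1 : (1 : ℝ) / (8 * 2 ^ P * 4) < 1 := by
    rw [div_lt_one (by positivity)]; linarith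
  have hrange : ∀ a ∈ range (M + 2), (y a).toNat ∈ range (M + 1) := by
    intro a ha
    rw [mem_range] at ha
    have g1 := (hy a).trans (hsmall a (by omega))
    rw [abs_le] at g1
    have g2 := R_nonneg (n + a)
    have g3 := R_le (n + a)
    have g4 : (y a : ℝ) < M + 1 := by nlinarith [g1.1]
    have g6 : y a < M + 1 := by exact_mod_cast g4
    rw [mem_range]
    omega
  have hnn : ∀ a ∈ range (M + 2), 0 ≤ y a := by
    intro a ha
    rw [mem_range] at ha
    have g1 := (hy a).trans (hsmall a (by omega))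
    rw [abs_le] at g1
    have g2 := R_nonneg (n + a)
    have g5 : (-1 : ℝ) < y a := by nlinarith [g1.2, mul_nonneg (by linarith : (0 : ℝ) ≤ M) g2]
    have g6 : (-1 : ℤ) < y a := by exact_mod_cast g5
    omega
  obtain ⟨a1, ha1, a2, ha2, hne, heq⟩ := Finset.exists_ne_map_eq_of_card_lt_of_maps_to
    (s := range (M + 2)) (t := range (M + 1)) (f := fun a => (y a).toNat)
    (by rw [card_range, card_range]; omega) hrange
  have heq' : y a1 = y a2 := by
    have h1 := hnn a1 ha1
    have h2 := hnn a2 ha2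
    omega
  rw [mem_range] at ha1 ha2
  have core : ∀ b1 b2 : ℕ, b1 < b2 → b2 < M + 2 → y b1 = y b2 → False := by
    intro b1 b2 hlt hb2 he
    have g1 := (hy b1).trans (hsmall b1 (by omega))
    have g2 := (hy b2).trans (hsmall b2 (by omega))
    rw [← he] at g2
    have g3 : |M * (R (n + b1) - R (n + b2))| ≤ 2 * (1 / (8 * 2 ^ P * 4)) := by
      have e1 : M * (R (n + b1) - R (n + b2)) = (M * R (n + b1) - y b1) - (M * R (n + b2) - y b1) := by ring
      rw [e1]
      have := abs_sub (M * R (n + b1) - y b1) (M * R (n + b2) - y b1)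
      linarith
    rw [abs_mul, abs_of_pos (by linarith : (0 : ℝ) < M)] at g3
    have g4 : |R (n + b1) - R (n + b2)| < 1 / (8 * 2 ^ P) := by
      have e2 : |R (n + b1) - R (n + b2)| ≤ M * |R (n + b1) - R (n + b2)| :=
        le_mul_of_one_le_left (abs_nonneg _) hMr
      have e3 : 2 * (1 / (8 * (2 : ℝ) ^ P * 4)) < 1 / (8 * 2 ^ P) := by
        rw [← mul_one_div, mul_one_div, mul_one_div]
        rw [div_lt_div_iff₀ (by positivity) (by positivity)]
        have : (0 : ℝ) < 2 ^ P := by positivity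
        nlinarith
      linarith
    have g5 := close_eq P _ _ g4
    apply hP (b2 - b1) (by omega) (by omega) (n + b1)
    intro s hs
    have := g5 s hs
    have e4 : n + b1 + (b2 - b1) = n + b2 := by omega
    rw [e4]
    exact this
  rcases lt_or_gt_of_ne hne with h | h
  · exact core a1 a2 h ha2 heq'
  · exact core a2 a1 h ha1 heq'.symm

end Q190.OB.TM
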