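import Pool.Agent.Q190.OB.J
import Pool.Agent.Q190.OB.H

/-! # The Thue–Morse number: all multiples are simply normal in base two (counting) -/

set_option autoImplicit false

namespace Q190.OB.TM

open Finset Filter Topology
open Q241.SW (digit Normal)

lemma flip_R (L : ℕ) : ∀ n n' : ℕ, (∀ i < L, tm (n + i) + tm (n' + i) = 1) →
    |R n + R n' - 1| ≤ 1 / 2 ^ L := by
  induction L with
  | zero =>
    intro n n' _
    have h1 := R_nonneg n
    have h2 := R_nonneg n'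
    have h3 := R_le n
    have h4 := R_le n'
    rw [pow_zero, div_one, abs_le]
    constructor <;> linarith
  | succ L ih =>
    intro n n' h
    have h1 := ih (n + 1) (n' + 1) (fun i hi => by
      have := h (i + 1) (by omega)
      have e1 : n + (i + 1) = n + 1 + i := by ring
      have e2 : n' + (i + 1) = n' + 1 + i := by ring
      rwa [e1, e2] at this)
    have h2 := h 0 (by omega)
    rw [add_zero, add_zero] at h2
    have h3 : (tm n : ℝ) + tm n' = 1 := by exact_mod_cast h2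
    have h4 := R_succ n
    have h5 := R_succ n'
    have h6 : R n + R n' - 1 = (R (n + 1) + R (n' + 1) - 1) / 2 := by
      rw [h4, h5]; linarith
    rw [h6, abs_div, abs_of_pos (by norm_num : (0 : ℝ) < 2), pow_succ, ← div_div]
    exact div_le_div_of_nonneg_right h1 (by norm_num)

lemma sq_flip (v η δ : ℝ) (hη : |2 * η| < δ) (h : ∀ z : ℤ, δ < |2 * v - z|) :
    sq (-v + η) = -sq v := by
  obtain ⟨f, hf⟩ : ∃ f : ℝ, f = Int.fract v := ⟨_, rfl⟩
  have h0 : 0 ≤ f := by rw [hf]; exact Int.fract_nonneg _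
  have h1 : f < 1 := by rw [hf]; exact Int.fract_lt_one _
  have h2 : v = f + (⌊v⌋ : ℝ) := by rw [hf, Int.fract_add_floor]
  have k0 := h (2 * ⌊v⌋)
  have k1 := h (2 * ⌊v⌋ + 1)
  have k2 := h (2 * ⌊v⌋ + 2)
  have e0 : 2 * v - ((2 * ⌊v⌋ : ℤ) : ℝ) = 2 * f := by push_cast; linarith
  have e1 : 2 * v - ((2 * ⌊v⌋ + 1 : ℤ) : ℝ) = 2 * f - 1 := by push_cast; linarith
  have e2 : 2 * v - ((2 * ⌊v⌋ + 2 : ℤ) : ℝ) = 2 * f - 2 := by push_cast; linarith
  rw [e0, abs_of_nonneg (by linarith)] at k0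
  rw [e1] at k1
  rw [e2, abs_of_nonpos (by linarith)] at k2
  rw [abs_lt] at hη
  have h3 : Int.fract (-v + η) = 1 - f + η := by
    rw [Int.fract_eq_iff]
    refine ⟨by linarith [hη.1], by linarith [hη.2], -⌊v⌋ - 1, ?_⟩
    push_cast
    linarith
  unfold sq
  rw [h3, ← hf]
  rcases lt_or_ge f (1 / 2) with h4 | h4
  · rw [abs_of_neg (by linarith)] at k1
    rw [if_pos h4, if_neg (by linarith [hη.1])]
  · rw [abs_of_nonneg (by linarith)] at k1
    rw [if_pos (by linarith [hη.2] : 1 - f + η < 1 / 2), if_neg (not_lt.2 h4), neg_neg]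

/-- the Thue–Morse number -/
noncomputable def T : ℝ := R 0

/-- integer parts -/
def I : ℕ → ℤ
  | 0 => 0
  | n + 1 => 2 * I n + tm n

lemma pow_T (n : ℕ) : (2 : ℝ) ^ n * T = I n + R n := by
  induction n with
  | zero => simp [I, T]
  | succ n ih =>
    have h1 := R_succ n
    have e : (2 : ℝ) ^ (n + 1) * T = 2 * ((2 : ℝ) ^ n * T) := by rw [pow_succ]; ring
    have e2 : I (n + 1) = 2 * I n + tm n := rfl
    rw [e, ih, e2]
    push_cast
    rw [h1]
    ring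

lemma digit_T (n : ℕ) : digit 2 T n = tm n := by
  unfold digit
  have h1 : T * ((2 : ℕ) : ℝ) ^ (n + 1) = R (n + 1) + ((I (n + 1) : ℤ) : ℝ) := by
    have := pow_T (n + 1)
    push_cast
    linarith
  rw [h1, Int.floor_add_intCast]
  have h2 : ⌊R (n + 1)⌋ = 0 := by
    rw [Int.floor_eq_zero_iff]
    exact ⟨R_nonneg _, lt_of_le_of_lt (R_bounds _).2 (by norm_num)⟩
  rw [h2, zero_add]
  have l := tm_lt n
  show (2 * I n + tm n) % ((2 : ℕ) : ℤ) = tm n
  push_cast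
  omega

lemma not_normal : ¬ Normal 2 T := by
  intro h
  have h1 := h 3 (by norm_num) (fun _ => 0)
  have h2 : ∀ N : ℕ, ((range N).filter fun i => ∀ j : Fin 3,
      digit 2 T (i + (j : ℕ)) = ((((fun _ => 0 : Fin 3 → Fin 2) j : Fin 2) : ℕ) : ℤ)) = ∅ := by
    intro N
    rw [filter_eq_empty_iff]
    intro n _ h3
    have g0 := h3 0
    have g1 := h3 1
    have g2 := h3 2
    rw [digit_T] at g0 g1 g2
    simp at g0 g1 g2
    apply tm_three n
    constructor <;> omega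
  have h3 : Tendsto (fun _ : ℕ => (0 : ℝ)) atTop (𝓝 (1 / ((2 : ℕ) : ℝ) ^ 3)) := by
    refine h1.congr fun N => ?_
    have := h2 N
    simp only [this, card_empty, Nat.cast_zero, zero_div]
  have h4 := tendsto_nhds_unique h3 tendsto_const_nhds
  norm_num at h4

/-- the signs -/
noncomputable def g (m : ℕ) (n : ℕ) : ℝ := sq ((m : ℝ) * ((2 : ℝ) ^ n * T))

lemma g_eq (m n : ℕ) : g m n = sq ((m : ℝ) * R n) := by
  unfold g
  rw [pow_T]
  have : (m : ℝ) * ((I n : ℤ) + R n) = m * R n + ((m * I n : ℤ) : ℝ) := by push_cast; ring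
  rw [this, sq_add_int]

lemma g_flip (m : ℕ) (hm : 1 ≤ m) : ∃ L : ℕ, ∀ n n' : ℕ, (∀ i < L, tm (n + i) + tm (n' + i) = 1) →
    g m n + g m n' = 0 := by
  obtain ⟨δ, hδ, h⟩ := away (2 * m) (by omega)
  have hmr : (0 : ℝ) < m := by exact_mod_cast hm
  obtain ⟨L, hL⟩ := pow_unbounded_of_one_lt (2 * m / δ) (by norm_num : (1 : ℝ) < 2)
  refine ⟨L, fun n n' hf => ?_⟩
  have h1 := flip_R L n n' hf
  obtain ⟨η, hη⟩ : ∃ η : ℝ, η = m * (R n + R n' - 1) := ⟨_, rfl⟩
  have h2 : |2 * η| < δ := by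
    rw [hη, ← mul_assoc, abs_mul, abs_of_pos (by positivity : (0 : ℝ) < 2 * m)]
    have h3 : 2 * (m : ℝ) * |R n + R n' - 1| ≤ 2 * m * (1 / 2 ^ L) := by gcongr
    refine h3.trans_lt ?_
    rw [div_lt_iff₀ hδ] at hL
    rw [mul_one_div, div_lt_iff₀ (by positivity)]
    linarith
  have h3 := sq_flip ((m : ℝ) * R n) η δ h2 (fun z => by
    have := h n z
    have e : ((2 * m : ℕ) : ℝ) * R n = 2 * ((m : ℝ) * R n) := by push_cast; ring
    rwa [e] at this)
  have h4 : (m : ℝ) * R n' = (-(m * R n) + η) + ((m : ℤ) : ℝ) := by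
    rw [hη]; push_cast; ring
  rw [g_eq, g_eq, h4, sq_add_int, h3]
  ring

lemma g_abs (m n : ℕ) : |g m n| = 1 := sq_abs _

/-- the sum over one block -/
lemma block_sum (m L k q : ℕ) (hL : ∀ n n' : ℕ, (∀ i < L, tm (n + i) + tm (n' + i) = 1) →
    g m n + g m n' = 0) :
    |∑ r ∈ range (2 ^ (k + 1)), g m (2 ^ (k + 1) * q + r)| ≤ 2 * L := by
  have e1 : 2 ^ (k + 1) = 2 ^ k + 2 ^ k := by rw [pow_succ]; ring
  have h1 : ∑ r ∈ range (2 ^ (k + 1)), g m (2 ^ (k + 1) * q + r) =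
      ∑ r ∈ range (2 ^ k), (g m (2 ^ (k + 1) * q + r) + g m (2 ^ (k + 1) * q + 2 ^ k + r)) := by
    have := sum_range_add (fun r => g m (2 ^ (k + 1) * q + r)) (2 ^ k) (2 ^ k)
    rw [← e1] at this
    rw [this, sum_add_distrib]
    congr 1
    exact sum_congr rfl fun r _ => by rw [add_assoc]
  rw [h1]
  refine (abs_sum_le_sum_abs _ _).trans ?_
  have h2 : ∀ r ∈ range (2 ^ k), |g m (2 ^ (k + 1) * q + r) + g m (2 ^ (k + 1) * q + 2 ^ k + r)| ≤
      if 2 ^ k < r + L then 2 else 0 := by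
    intro r hr
    rw [mem_range] at hr
    split_ifs with h3
    · have := abs_add_le (g m (2 ^ (k + 1) * q + r)) (g m (2 ^ (k + 1) * q + 2 ^ k + r))
      rw [g_abs, g_abs] at this
      linarith
    · rw [hL _ _ (fun i hi => ?_), abs_zero]
      rw [add_assoc (2 ^ (k + 1) * q) r i, add_assoc (2 ^ (k + 1) * q + 2 ^ k) r i]
      exact tm_flip k q (r + i) (by omega)
  refine (sum_le_sum h2).trans ?_
  rw [← sum_filter, sum_const, nsmul_eq_mul]
  have h3 : ((range (2 ^ k)).filter fun r => 2 ^ k < r + L).card ≤ L := by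
    have hsub : ((range (2 ^ k)).filter fun r => 2 ^ k < r + L) ⊆ Ico (2 ^ k - L) (2 ^ k) := by
      intro r hr
      rw [mem_filter, mem_range] at hr
      rw [mem_Ico]
      omega
    refine (card_le_card hsub).trans ?_
    rw [Nat.card_Ico]
    omega
  have h4 : (((range (2 ^ k)).filter fun r => 2 ^ k < r + L).card : ℝ) ≤ L := by exact_mod_cast h3
  linarith

lemma long_sum (m L k N : ℕ) (hL : ∀ n n' : ℕ, (∀ i < L, tm (n + i) + tm (n' + i) = 1) →
    g m n + g m n' = 0) :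
    |∑ n ∈ range N, g m n| ≤ 2 * L * ((N / 2 ^ (k + 1) : ℕ) : ℝ) + 2 ^ (k + 1) := by
  have h1 : ∀ Q : ℕ, |∑ n ∈ range (2 ^ (k + 1) * Q), g m n| ≤ 2 * L * Q := by
    intro Q
    induction Q with
    | zero => simp
    | succ Q ih =>
      rw [mul_add, mul_one, sum_range_add]
      have h2 := block_sum m L k Q hL
      have h3 := abs_add_le (∑ n ∈ range (2 ^ (k + 1) * Q), g m n)
        (∑ r ∈ range (2 ^ (k + 1)), g m (2 ^ (k + 1) * Q + r))
      push_cast
      linarith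
  obtain ⟨Q, hQ⟩ : ∃ Q, Q = N / 2 ^ (k + 1) := ⟨_, rfl⟩
  rw [← hQ]
  have h2 := Nat.div_add_mod N (2 ^ (k + 1))
  rw [← hQ] at h2
  have h3 : N % 2 ^ (k + 1) < 2 ^ (k + 1) := Nat.mod_lt _ (by positivity)
  rw [← h2, sum_range_add]
  have h4 : |∑ r ∈ range (N % 2 ^ (k + 1)), g m (2 ^ (k + 1) * Q + r)| ≤ 2 ^ (k + 1) := by
    refine (abs_sum_le_sum_abs _ _).trans ?_
    simp_rw [g_abs]
    rw [sum_const, card_range, nsmul_eq_mul, mul_one]
    exact_mod_cast h3.le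
  have h5 := abs_add_le (∑ n ∈ range (2 ^ (k + 1) * Q), g m n)
        (∑ r ∈ range (N % 2 ^ (k + 1)), g m (2 ^ (k + 1) * Q + r))
  have h6 := h1 Q
  linarith

theorem low_T (m : ℕ) (hm : 1 ≤ m) :
    Tendsto (fun N : ℕ => (low (fun n => (m : ℝ) * ((2 : ℝ) ^ n * T)) N : ℝ) / N) atTop (𝓝 (1 / 2)) := by
  obtain ⟨L, hL⟩ := g_flip m hm
  rw [Metric.tendsto_atTop]
  intro ε hε
  obtain ⟨k, hk⟩ := pow_unbounded_of_one_lt (2 * L / ε) (by norm_num : (1 : ℝ) < 2)
  obtain ⟨N0, hN0⟩ := exists_nat_gt ((2 : ℝ) ^ (k + 1) / ε)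
  refine ⟨max N0 1, fun N hN => ?_⟩
  have hN1 : 1 ≤ N := (le_max_right _ _).trans hN
  have hNr : (0 : ℝ) < N := by exact_mod_cast hN1
  have hNN : (N0 : ℝ) ≤ N := by exact_mod_cast (le_max_left _ _).trans hN
  have h1 := long_sum m L k N hL
  have h2 : ∑ n ∈ range N, g m n = 2 * low (fun n => (m : ℝ) * ((2 : ℝ) ^ n * T)) N - N :=
    sum_low (fun n => (m : ℝ) * ((2 : ℝ) ^ n * T)) N
  rw [h2] at h1
  have h3 : ((N / 2 ^ (k + 1) : ℕ) : ℝ) ≤ N / 2 ^ (k + 1) := by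
    have := Nat.cast_div_le (α := ℝ) (m := N) (n := 2 ^ (k + 1))
    push_cast at this
    exact this
  have h4 : 2 * (L : ℝ) * ((N / 2 ^ (k + 1) : ℕ) : ℝ) ≤ ε / 2 * N := by
    have h5 : 2 * (L : ℝ) * ((N / 2 ^ (k + 1) : ℕ) : ℝ) ≤ 2 * L * (N / 2 ^ (k + 1)) := by gcongr
    refine h5.trans ?_
    rw [div_lt_iff₀ hε] at hk
    rw [mul_div_assoc', div_le_iff₀ (by positivity), pow_succ]
    nlinarith
  have h5 : (2 : ℝ) ^ (k + 1) < ε * N := by
    rw [div_lt_iff₀ hε] at hN0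
    nlinarith
  have h6 : |2 * (low (fun n => (m : ℝ) * ((2 : ℝ) ^ n * T)) N : ℝ) - N| < 2 * (ε * N) := by
    have : 0 < ε * N := by positivity
    linarith
  rw [Real.dist_eq]
  obtain ⟨l, hl⟩ : ∃ l : ℝ, l = (low (fun n => (m : ℝ) * ((2 : ℝ) ^ n * T)) N : ℝ) := ⟨_, rfl⟩
  rw [← hl] at h6 ⊢
  have h7 : l / N - 1 / 2 = (2 * l - N) / (2 * N) := by
    field_simp
  rw [h7, abs_div, abs_of_pos (by positivity : (0 : ℝ) < 2 * N), div_lt_iff₀ (by positivity)]
  linarith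

lemma digit_zero_iff (z : ℝ) (n : ℕ) : digit 2 z n = 0 ↔ Int.fract (((2 : ℕ) : ℝ) ^ n * z) < 1 / 2 := by
  obtain ⟨w, hw⟩ : ∃ w : ℝ, w = ((2 : ℕ) : ℝ) ^ n * z := ⟨_, rfl⟩
  have h0 := Int.fract_nonneg w
  have h1 := Int.fract_lt_one w
  have h2 := Int.fract_add_floor w
  unfold digit
  have e1 : z * ((2 : ℕ) : ℝ) ^ (n + 1) = 2 * Int.fract w + ((2 * ⌊w⌋ : ℤ) : ℝ) := by
    have e2 : z * ((2 : ℕ) : ℝ) ^ (n + 1) = 2 * w := by rw [hw, pow_succ]; push_cast; ring
    rw [e2]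
    push_cast
    nth_rewrite 1 [← h2]
    ring
  rw [← hw, e1, Int.floor_add_intCast]
  rcases lt_or_ge (Int.fract w) (1 / 2) with h3 | h3
  · have : ⌊2 * Int.fract w⌋ = 0 := by
      rw [Int.floor_eq_zero_iff]; exact ⟨by linarith, by linarith⟩
    rw [this]
    refine ⟨fun _ => h3, fun _ => ?_⟩
    push_cast
    omega
  · have : ⌊2 * Int.fract w⌋ = 1 := by
      rw [Int.floor_eq_iff]; push_cast; exact ⟨by linarith, by linarith⟩
    rw [this]
    refine ⟨fun h => ?_, fun h => absurd h (not_lt.2 h3)⟩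
    push_cast at h
    omega

/-- all the multiples of the Thue–Morse number are simply normal to base two -/
theorem simply (m : ℕ) (hm : 1 ≤ m) (d : ℕ) (hd : d < 2) :
    Tendsto (fun N : ℕ => (((range N).filter fun n => digit 2 ((m : ℝ) * T) n = (d : ℤ)).card : ℝ) / N)
      atTop (𝓝 (1 / 2)) := by
  have h1 := low_T m hm
  have h2 : ∀ N : ℕ, (range N).filter (fun n => digit 2 ((m : ℝ) * T) n = 0) =
      (range N).filter (fun n => Int.fract ((m : ℝ) * ((2 : ℝ) ^ n * T)) < 1 / 2) := by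
    intro N
    refine filter_congr fun n _ => ?_
    rw [digit_zero_iff]
    have : (((2 : ℕ) : ℝ) ^ n * (m * T)) = (m : ℝ) * ((2 : ℝ) ^ n * T) := by push_cast; ring
    rw [this]
  rcases (by omega : d = 0 ∨ d = 1) with rfl | rfl
  · refine h1.congr fun N => ?_
    have e := h2 N
    unfold low
    rw [← e]
    simp
  · have h3 := h1.const_sub 1
    have e1 : (1 : ℝ) - 1 / 2 = 1 / 2 := by norm_num
    rw [e1] at h3
    refine h3.congr' ?_
    filter_upwards [eventually_ge_atTop 1] with N hN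
    have hNr : (N : ℝ) ≠ 0 := by exact_mod_cast (by omega : N ≠ 0)
    have e2 : (range N).filter (fun n => digit 2 ((m : ℝ) * T) n = ((1 : ℕ) : ℤ)) =
        (range N).filter (fun n => ¬ digit 2 ((m : ℝ) * T) n = 0) := by
      refine filter_congr fun n _ => ?_
      have := Q241.SW.digit_range 2 (by norm_num) ((m : ℝ) * T) n
      push_cast at this ⊢
      omega
    have e3 := card_filter_add_card_filter_not (s := range N) (fun n => digit 2 ((m : ℝ) * T) n = 0)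
    rw [h2 N, ← e2, card_range] at e3
    have e4 : (low (fun n => (m : ℝ) * ((2 : ℝ) ^ n * T)) N : ℝ) +
        (((range N).filter fun n => digit 2 ((m : ℝ) * T) n = ((1 : ℕ) : ℤ)).card : ℝ) = N := by
      exact_mod_cast e3
    obtain ⟨l, hl⟩ : ∃ l : ℝ, l = (low (fun n => (m : ℝ) * ((2 : ℝ) ^ n * T)) N : ℝ) := ⟨_, rfl⟩
    rw [← hl] at e4 ⊢
    rw [eq_div_iff hNr]
    have e5 : (1 - l / N) * N = N - l := by field_simp
    rw [e5]
    linarith

end Q190.OB.TM
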